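import Mathlib

/-!
# Definitions for `r`-cross `L`-intersecting families
-/

namespace Cross7592
open Finset

variable {n : ℕ}

/-- the common points `A₁ ∩ ... ∩ A_r` of a tuple of sets -/
def common {r : ℕ} (A : Fin r → Finset (Fin n)) : Finset (Fin n) :=
  univ.filter fun x => ∀ i, x ∈ A i

/-- `(𝒜₁,...,𝒜_r)` is an `r`-tuple of non-empty families of `k`-subsets of `{0,...,n-1}` which is
`r`-cross `L`-intersecting -/
structure Adm (n k r : ℕ) (L : Finset ℕ) (𝒜 : Fin r → Finset (Finset (Fin n))) : Prop where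
  sub : ∀ i, ∀ F ∈ 𝒜 i, #F = k
  ne : ∀ i, (𝒜 i).Nonempty
  cross : ∀ A : Fin r → Finset (Fin n), (∀ i, A i ∈ 𝒜 i) → #(common A) ∈ L

/-- the total size `|𝒜₁| + ... + |𝒜_r|` -/
def total {r : ℕ} (𝒜 : Fin r → Finset (Finset (Fin n))) : ℕ := ∑ i, #(𝒜 i)

/-- the set of all total sizes of non-empty `r`-cross `L`-intersecting tuples -/
def totals (n k r : ℕ) (L : Finset ℕ) : Set ℕ :=
  {s | ∃ 𝒜 : Fin r → Finset (Finset (Fin n)), Adm n k r L 𝒜 ∧ s = total 𝒜}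

/-- value of the configurations of type A -/
def valA (n k r : ℕ) (L : Finset ℕ) : ℕ :=
  (r - 1) + ∑ l ∈ L, k.choose l * (n - k).choose (k - l)

/-- value of the configurations of type B -/
def valB (n k r t j : ℕ) : ℕ :=
  (r - 2) * (n - t).choose (k - t) + 1 +
    ∑ i ∈ range j, (k - t).choose i * (n - k).choose (k - t - i)

/-- type A: all families but one are equal to `{K}`, the remaining one consists of all `k`-sets
`F` with `|F ∩ K| ∈ L` -/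
def TypeA (n k r : ℕ) (L : Finset ℕ) (𝒜 : Fin r → Finset (Finset (Fin n))) : Prop :=
  ∃ K : Finset (Fin n), #K = k ∧ ∃ i₀ : Fin r, (∀ i, i ≠ i₀ → 𝒜 i = {K}) ∧
    ∀ F, F ∈ 𝒜 i₀ ↔ #F = k ∧ #(F ∩ K) ∈ L

/-- type B: for some `t`-set `T` and some `k`-set `K ⊇ T` one family is `{K}`, another one consists
of all `k`-sets `F ⊇ T` with `|F ∩ K| < t + j`, and all others consist of all `k`-sets
`F ⊇ T` -/
def TypeB (n k r t j : ℕ) (𝒜 : Fin r → Finset (Finset (Fin n))) : Prop :=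
  ∃ T K : Finset (Fin n), #T = t ∧ #K = k ∧ T ⊆ K ∧ ∃ l l' : Fin r, l ≠ l' ∧ 𝒜 l = {K} ∧
    (∀ F, F ∈ 𝒜 l' ↔ #F = k ∧ T ⊆ F ∧ #(F ∩ K) < t + j) ∧
    ∀ i, i ≠ l → i ≠ l' → ∀ F, F ∈ 𝒜 i ↔ #F = k ∧ T ⊆ F

end Cross7592
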