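import Mathlib
import Pool.Agent.Lib.MP_7592f8.Defs

section

/-!
# Counting lemmas for `r`-cross `L`-intersecting families
-/

namespace Cross7592
open Finset

variable {n : ℕ}

/-- number of `κ`-subsets of `V` whose trace on `Z` is exactly `J` -/
theorem card_trace (V Z J : Finset (Fin n)) (κ : ℕ) (hJZ : J ⊆ Z) (hZV : Z ⊆ V) (hJ : #J ≤ κ) :
    #((V.powersetCard κ).filter fun F => F ∩ Z = J) = (#V - #Z).choose (κ - #J) := by
  have h1 : (V.powersetCard κ).filter (fun F => F ∩ Z = J) =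
      ((V \ Z).powersetCard (κ - #J)).image (fun G => J ∪ G) := by
    ext F
    simp only [mem_filter, mem_powersetCard, mem_image]
    constructor
    · rintro ⟨⟨hFV, hFc⟩, hFZ⟩
      refine ⟨F \ Z, ⟨sdiff_subset_sdiff hFV Subset.rfl, ?_⟩, ?_⟩
      · have := card_sdiff_add_card_inter F Z
        rw [hFZ] at this
        omega
      · rw [← hFZ, union_comm]
        exact sdiff_union_inter F Z
    · rintro ⟨G, ⟨hG, hGc⟩, rfl⟩
      have hGZ : Disjoint G Z := disjoint_of_subset_left hG sdiff_disjoint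
      have hGJ : Disjoint J G := (disjoint_of_subset_right hJZ hGZ).symm
      refine ⟨⟨union_subset (hJZ.trans hZV) (hG.trans sdiff_subset), ?_⟩, ?_⟩
      · rw [card_union_of_disjoint hGJ, hGc]; omega
      · rw [union_inter_distrib_right, disjoint_iff_inter_eq_empty.1 hGZ, union_empty]
        exact inter_eq_left.2 hJZ
  rw [h1, card_image_of_injOn, card_powersetCard, card_sdiff_of_subset hZV]
  intro G hG G' hG' h
  rw [mem_coe, mem_powersetCard] at hG hG'
  have hGJ : Disjoint J G := disjoint_of_subset_left hJZ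
    (disjoint_of_subset_right hG.1 disjoint_sdiff)
  have hGJ' : Disjoint J G' := disjoint_of_subset_left hJZ
    (disjoint_of_subset_right hG'.1 disjoint_sdiff)
  have h' : J ∪ G = J ∪ G' := h
  calc G = (J ∪ G) \ J := by rw [union_sdiff_left]; exact (sdiff_eq_self_of_disjoint hGJ.symm).symm
    _ = (J ∪ G') \ J := by rw [h']
    _ = G' := by rw [union_sdiff_left]; exact sdiff_eq_self_of_disjoint hGJ'.symm

/-- number of `κ`-subsets of `V` containing `J` -/
theorem card_star (V J : Finset (Fin n)) (κ : ℕ) (hJV : J ⊆ V) (hJ : #J ≤ κ) :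
    #((V.powersetCard κ).filter fun F => J ⊆ F) = (#V - #J).choose (κ - #J) := by
  rw [← card_trace V J J κ Subset.rfl hJV hJ]
  congr 1
  ext F
  simp only [mem_filter, inter_eq_right]

/-- number of `κ`-subsets of `V` meeting `A` in exactly `i` points -/
theorem card_inter_eq (V A : Finset (Fin n)) (κ i : ℕ) (hA : A ⊆ V) (hi : i ≤ κ) :
    #((V.powersetCard κ).filter fun F => #(F ∩ A) = i) =
      (#A).choose i * (#V - #A).choose (κ - i) := by
  have h1 : (V.powersetCard κ).filter (fun F => #(F ∩ A) = i) =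
      (A.powersetCard i).biUnion fun J => (V.powersetCard κ).filter fun F => F ∩ A = J := by
    ext F
    simp only [mem_filter, mem_biUnion, mem_powersetCard]
    constructor
    · rintro ⟨h1, h2⟩
      exact ⟨F ∩ A, ⟨inter_subset_right, h2⟩, h1, rfl⟩
    · rintro ⟨J, ⟨hJ, hJi⟩, h1, h2⟩
      exact ⟨h1, by rw [h2, hJi]⟩
  rw [h1, card_biUnion]
  · rw [sum_congr rfl (g := fun _ => (#V - #A).choose (κ - i))]
    · rw [sum_const, card_powersetCard, smul_eq_mul]
    · intro J hJ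
      rw [mem_powersetCard] at hJ
      rw [card_trace V A J κ hJ.1 hA (by omega), hJ.2]
  · intro J _ J' _ hne
    rw [Function.onFun, disjoint_left]
    intro F h1 h2
    rw [mem_filter] at h1 h2
    exact hne (h1.2.symm.trans h2.2)

/-- number of `κ`-subsets of `V` meeting `A` in a number of points lying in `S` -/
theorem card_inter_mem (V A : Finset (Fin n)) (κ : ℕ) (hA : A ⊆ V) (S : Finset ℕ)
    (hS : ∀ i ∈ S, i ≤ κ) :
    #((V.powersetCard κ).filter fun F => #(F ∩ A) ∈ S) =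
      ∑ i ∈ S, (#A).choose i * (#V - #A).choose (κ - i) := by
  have h1 : (V.powersetCard κ).filter (fun F => #(F ∩ A) ∈ S) =
      S.biUnion fun i => (V.powersetCard κ).filter fun F => #(F ∩ A) = i := by
    ext F
    simp only [mem_filter, mem_biUnion]
    constructor
    · rintro ⟨h1, h2⟩
      exact ⟨_, h2, h1, rfl⟩
    · rintro ⟨i, hi, h1, rfl⟩
      exact ⟨h1, hi⟩
  rw [h1, card_biUnion]
  · exact sum_congr rfl fun i hi => card_inter_eq V A κ i hA (hS i hi)
  · intro i _ i' _ hne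
    rw [Function.onFun, disjoint_left]
    intro F h1 h2
    rw [mem_filter] at h1 h2
    exact hne (h1.2.symm.trans h2.2)

end Cross7592
end

section

/-!
# Numerical lemmas for `r`-cross `L`-intersecting families
-/

namespace Cross7592

/-- binomial coefficients with larger lower index dominate -/
theorem choose_dom (c a b m : ℕ) : ∃ N₀, ∀ N, N₀ ≤ N →
    c * (N - a).choose m ≤ (N - b).choose (m + 1) := by
  refine ⟨2 * (b + m) + c * (m + 1).factorial * 2 ^ (m + 1), fun N hN => ?_⟩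
  have h1 : (N - a).choose m ≤ N ^ m :=
    (Nat.choose_le_choose m (Nat.sub_le N a)).trans (Nat.choose_le_pow N m)
  have h2 : (N - b - m) ^ (m + 1) ≤ (m + 1).factorial * (N - b).choose (m + 1) := by
    rw [← Nat.descFactorial_eq_factorial_mul_choose]
    have := Nat.pow_sub_le_descFactorial (N - b) (m + 1)
    have e : N - b + 1 - (m + 1) = N - b - m := by omega
    rwa [e] at this
  have h3 : N ≤ 2 * (N - b - m) := by
    have : 2 * (b + m) ≤ N := by omega
    omega
  have h4 : N ^ (m + 1) ≤ 2 ^ (m + 1) * (N - b - m) ^ (m + 1) := by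
    rw [← mul_pow]; exact Nat.pow_le_pow_left h3 _
  have h5 : c * (m + 1).factorial * 2 ^ (m + 1) * N ^ m ≤ N ^ (m + 1) := by
    rw [show N ^ (m + 1) = N * N ^ m by ring]
    exact Nat.mul_le_mul_right _ (by omega)
  have h6 : (2 ^ (m + 1) * (m + 1).factorial) * (c * (N - a).choose m) ≤
      (2 ^ (m + 1) * (m + 1).factorial) * (N - b).choose (m + 1) := by
    calc (2 ^ (m + 1) * (m + 1).factorial) * (c * (N - a).choose m)
        ≤ (2 ^ (m + 1) * (m + 1).factorial) * (c * N ^ m) := by gcongr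
      _ = c * (m + 1).factorial * 2 ^ (m + 1) * N ^ m := by ring
      _ ≤ N ^ (m + 1) := h5
      _ ≤ 2 ^ (m + 1) * (N - b - m) ^ (m + 1) := h4
      _ ≤ 2 ^ (m + 1) * ((m + 1).factorial * (N - b).choose (m + 1)) := by gcongr
      _ = _ := by ring
  exact Nat.le_of_mul_le_mul_left h6 (by positivity)

/-- Pascal difference bound -/
theorem choose_add_le (M d m : ℕ) :
    (M + d).choose (m + 1) ≤ M.choose (m + 1) + d * (M + d).choose m := by
  induction d with
  | zero => simp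
  | succ d ih =>
    have h1 : (M + (d + 1)).choose (m + 1) = (M + d).choose m + (M + d).choose (m + 1) :=
      Nat.choose_succ_succ _ _
    have h2 : (M + d).choose m ≤ (M + (d + 1)).choose m := Nat.choose_le_choose _ (by omega)
    calc (M + (d + 1)).choose (m + 1) = (M + d).choose m + (M + d).choose (m + 1) := h1
      _ ≤ (M + d).choose m + (M.choose (m + 1) + d * (M + d).choose m) := by omega
      _ = M.choose (m + 1) + (d + 1) * (M + d).choose m := by ring
      _ ≤ M.choose (m + 1) + (d + 1) * (M + (d + 1)).choose m := by gcongr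

theorem choose_sub_le (N a b m : ℕ) (hab : a ≤ b) (hb : b ≤ N) :
    (N - a).choose (m + 1) ≤ (N - b).choose (m + 1) + (b - a) * (N - a).choose m := by
  have := choose_add_le (N - b) (b - a) m
  have e : N - b + (b - a) = N - a := by omega
  rwa [e] at this

theorem choose_lower (X j : ℕ) (hj : 1 ≤ j) : X + 1 - j ≤ X.choose j := by
  rcases Nat.lt_or_ge X j with h | h
  · omega
  induction j, hj using Nat.le_induction generalizing X with
  | base => simp
  | succ j hj ih =>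
    obtain ⟨Y, rfl⟩ : ∃ Y, X = Y + 1 := ⟨X - 1, by omega⟩
    rw [Nat.choose_succ_succ]
    rcases Nat.lt_or_ge Y (j + 1) with h1 | h1
    · have : Y = j := by omega
      subst this
      simp
    · have := ih Y (by omega)
      omega

theorem step_I (κ j x N : ℕ) (hjκ : j < κ) (hκx : κ ≤ x) (hxN : x + 1 ≤ N) :
    (N - j) * (κ.choose j * (x + 1).choose κ) ≤
      (x + 1) * (x.choose j * (N - j).choose (κ - j)) := by
  obtain ⟨d, rfl⟩ : ∃ d, κ = j + d + 1 := ⟨κ - j - 1, by omega⟩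
  have e0 : j + d + 1 - j = d + 1 := by omega
  rw [e0]
  have h1 : (j + d + 1).choose j * (x + 1).choose (j + d + 1) =
      (x + 1).choose j * (x + 1 - j).choose (d + 1) := by
    rw [mul_comm, Nat.choose_mul (by omega), e0]
  have h2 : x.choose j * (x + 1) = (x + 1).choose j * (x + 1 - j) := Nat.choose_mul_succ_eq x j
  have h3 : (x + 1 - j).choose (d + 1) * (d + 1) = (x + 1 - j) * (x - j).choose d := by
    have := Nat.add_one_mul_choose_eq (x - j) d
    have e : x - j + 1 = x + 1 - j := by omega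
    rw [e] at this
    rw [this]
  have h4 : (N - j).choose (d + 1) * (d + 1) = (N - j) * (N - j - 1).choose d := by
    have := Nat.add_one_mul_choose_eq (N - j - 1) d
    have e : N - j - 1 + 1 = N - j := by omega
    rw [e] at this
    rw [this]
  have h5 : (x - j).choose d ≤ (N - j - 1).choose d := Nat.choose_le_choose _ (by omega)
  have h6 : (d + 1) * ((N - j) * ((j + d + 1).choose j * (x + 1).choose (j + d + 1))) ≤
      (d + 1) * ((x + 1) * (x.choose j * (N - j).choose (d + 1))) := by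
    rw [h1]
    calc (d + 1) * ((N - j) * ((x + 1).choose j * (x + 1 - j).choose (d + 1)))
        = (N - j) * ((x + 1).choose j * ((x + 1 - j).choose (d + 1) * (d + 1))) := by ring
      _ = (N - j) * (((x + 1).choose j * (x + 1 - j)) * (x - j).choose d) := by rw [h3]; ring
      _ = (N - j) * ((x.choose j * (x + 1)) * (x - j).choose d) := by rw [h2]
      _ ≤ (N - j) * ((x.choose j * (x + 1)) * (N - j - 1).choose d) := by gcongr
      _ = (x + 1) * (x.choose j * ((N - j) * (N - j - 1).choose d)) := by ring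
      _ = (x + 1) * (x.choose j * ((N - j).choose (d + 1) * (d + 1))) := by rw [h4]
      _ = _ := by ring
  exact Nat.le_of_mul_le_mul_left h6 (by omega)

theorem step_II (r κ j x N : ℕ) (hr : 3 ≤ r) (hκ : 1 ≤ κ) (hjκ : j < κ)
    (hκx : κ ≤ x) (hN : 4 * r * κ * κ < N)
    (h : r * x.choose κ ≤ (r - 1) * N.choose κ) :
    2 * r * κ * (x + 1) ≤ (2 * r * κ - 1) * (N - j) := by
  by_contra hc
  push Not at hc
  have hr1 : 1 ≤ 2 * r * κ := by nlinarith
  have hN0 : 0 < N := by omega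
  -- pass to the reals
  have h1 : (r : ℝ) * ((x + 1 - κ : ℕ) : ℝ) ^ κ ≤ (r - 1) * (N : ℝ) ^ κ := by
    have a1 : (x + 1 - κ) ^ κ ≤ x.descFactorial κ := Nat.pow_sub_le_descFactorial x κ
    have a2 : N.descFactorial κ ≤ N ^ κ := Nat.descFactorial_le_pow N κ
    rw [Nat.descFactorial_eq_factorial_mul_choose] at a1 a2
    have a3 : r * (x + 1 - κ) ^ κ ≤ (r - 1) * N ^ κ := by
      calc r * (x + 1 - κ) ^ κ ≤ r * (κ.factorial * x.choose κ) := by gcongr
        _ = κ.factorial * (r * x.choose κ) := by ring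
        _ ≤ κ.factorial * ((r - 1) * N.choose κ) := by gcongr
        _ = (r - 1) * (κ.factorial * N.choose κ) := by ring
        _ ≤ (r - 1) * N ^ κ := by gcongr
    have a4 : ((r * (x + 1 - κ) ^ κ : ℕ) : ℝ) ≤ (((r - 1) * N ^ κ : ℕ) : ℝ) := by exact_mod_cast a3
    push_cast [Nat.cast_sub (show 1 ≤ r by omega)] at a4
    exact a4
  have hrκ : (0 : ℝ) < r * κ := by positivity
  have h2 : (r * κ - 1 : ℝ) * N < (r * κ) * ((x + 1 - κ : ℕ) : ℝ) := by
    have b1 : ((2 * r * κ - 1 : ℕ) : ℝ) * ((N - j : ℕ) : ℝ) < 2 * r * κ * (x + 1) := by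
      exact_mod_cast hc
    rw [Nat.cast_sub hr1, Nat.cast_sub (show j ≤ N by nlinarith)] at b1
    rw [Nat.cast_sub (show κ ≤ x + 1 by omega)]
    push_cast at b1 ⊢
    have b2 : (4 * r * κ * κ : ℝ) < N := by exact_mod_cast hN
    have b3 : (j : ℝ) < κ := by exact_mod_cast hjκ
    have b4 : (1 : ℝ) ≤ κ := by exact_mod_cast hκ
    have b5 : (3 : ℝ) ≤ r := by exact_mod_cast hr
    have b6 : (0 : ℝ) ≤ j := by positivity
    have b7 : (2 * r * κ : ℝ) * j ≤ 2 * r * κ * κ := by
      apply mul_le_mul_of_nonneg_left b3.le (by positivity)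
    nlinarith
  have h3 : (1 - 1 / (r * κ) : ℝ) < ((x + 1 - κ : ℕ) : ℝ) / N := by
    rw [lt_div_iff₀ (by exact_mod_cast hN0)]
    have : (1 - 1 / (r * κ) : ℝ) * N = ((r * κ - 1) * N) / (r * κ) := by field_simp
    rw [this, div_lt_iff₀ hrκ]
    linarith
  have h4 : (1 - 1 / r : ℝ) ≤ (1 - 1 / (r * κ) : ℝ) ^ κ := by
    have c1 : (-2 : ℝ) ≤ -(1 / (r * κ)) := by
      have : (1 : ℝ) / (r * κ) ≤ 1 := by
        rw [div_le_one hrκ]
        have b4 : (1 : ℝ) ≤ κ := by exact_mod_cast hκ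
        have b5 : (3 : ℝ) ≤ r := by exact_mod_cast hr
        nlinarith
      linarith
    have := one_add_mul_le_pow c1 κ
    have e1 : 1 + (κ : ℝ) * -(1 / (r * κ)) = 1 - 1 / r := by
      have : (κ : ℝ) ≠ 0 := by positivity
      have : (r : ℝ) ≠ 0 := by positivity
      field_simp
      ring
    rw [e1] at this
    rw [sub_eq_add_neg 1 (1 / (r * κ) : ℝ)]
    exact this
  have h0 : (0 : ℝ) ≤ 1 - 1 / (r * κ) := by
    have : (1 : ℝ) / (r * κ) ≤ 1 := by
      rw [div_le_one hrκ]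
      have b4 : (1 : ℝ) ≤ κ := by exact_mod_cast hκ
      have b5 : (3 : ℝ) ≤ r := by exact_mod_cast hr
      nlinarith
    linarith
  have h5 : (1 - 1 / r : ℝ) < (((x + 1 - κ : ℕ) : ℝ) / N) ^ κ :=
    h4.trans_lt (pow_lt_pow_left₀ h3 h0 (by omega))
  rw [div_pow, lt_div_iff₀ (by positivity)] at h5
  have hr0 : (0 : ℝ) < r := by positivity
  have h6 : (r : ℝ) * ((1 - 1 / r) * (N : ℝ) ^ κ) < r * ((x + 1 - κ : ℕ) : ℝ) ^ κ :=
    mul_lt_mul_of_pos_left h5 hr0
  have e2 : (r : ℝ) * ((1 - 1 / r) * (N : ℝ) ^ κ) = (r - 1) * (N : ℝ) ^ κ := by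
    field_simp
  linarith

/-- the numerical core of the large case -/
theorem num5 (r κ j : ℕ) (hr : 3 ≤ r) (hj : 1 ≤ j) (hjκ : j < κ) :
    ∃ X₀ N₀ : ℕ, ∀ N, N₀ ≤ N → ∀ a, X₀.choose κ ≤ a → r * a ≤ (r - 1) * N.choose κ →
      ∃ x, κ ≤ x ∧ x ≤ N ∧ x.choose κ ≤ a ∧
        κ.choose j * (a + κ.choose j * (N - j).choose (κ - j)) ≤
          x.choose j * (N - j).choose (κ - j) := by
  set X₀ := 2 * r * κ * (κ.choose j * κ.choose j) + κ with hX₀
  refine ⟨X₀, X₀ + 4 * r * κ * κ + 1, fun N hN a ha hra => ?_⟩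
  have hκN : κ ≤ N := by omega
  have hpos : 0 < N.choose κ := Nat.choose_pos hκN
  have haN : a < N.choose κ := by
    have : r * a < r * N.choose κ := by
      refine lt_of_le_of_lt hra ?_
      exact Nat.mul_lt_mul_of_pos_right (by omega) hpos
    exact Nat.lt_of_mul_lt_mul_left this
  set x := Nat.findGreatest (fun x => x.choose κ ≤ a) N with hx
  have hX₀N : X₀ ≤ N := by omega
  have hX₀x : X₀ ≤ x := Nat.le_findGreatest hX₀N ha
  have hxN : x ≤ N := Nat.findGreatest_le _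
  have hxa : x.choose κ ≤ a := Nat.findGreatest_spec (P := fun x => x.choose κ ≤ a) hX₀N ha
  have hxlt : x < N := by
    rcases Nat.lt_or_ge x N with h | h
    · exact h
    · have : x = N := by omega
      rw [this] at hxa
      omega
  have hx1 : a < (x + 1).choose κ := by
    by_contra hc
    push Not at hc
    have := Nat.le_findGreatest (P := fun x => x.choose κ ≤ a) (show x + 1 ≤ N by omega) hc
    omega
  have hκx : κ ≤ x := by omega
  refine ⟨x, hκx, hxN, hxa, ?_⟩
  have hI := step_I κ j x N hjκ hκx hxlt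
  have hII := step_II r κ j x N hr (by omega) hjκ hκx (by omega)
    ((Nat.mul_le_mul_left r hxa).trans hra)
  have hNj : 0 < N - j := by omega
  set q := 2 * r * κ with hq
  have hq1 : 1 ≤ q := by
    rw [hq]; have : 1 ≤ r * κ := Nat.mul_pos (by omega) (by omega)
    nlinarith
  set c := κ.choose j with hc
  set M := (N - j).choose (κ - j) with hM
  have hxj : q * (c * c) ≤ x.choose j := by
    have h1 := choose_lower x j hj
    have h2 : q * (c * c) + κ ≤ x := hX₀x
    omega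
  have A1 : (N - j) * (q * (c * a)) ≤ (N - j) * ((q - 1) * (x.choose j * M)) := by
    calc (N - j) * (q * (c * a)) ≤ (N - j) * (q * (c * (x + 1).choose κ)) := by gcongr
      _ = q * ((N - j) * (c * (x + 1).choose κ)) := by ring
      _ ≤ q * ((x + 1) * (x.choose j * M)) := by gcongr
      _ = (q * (x + 1)) * (x.choose j * M) := by ring
      _ ≤ ((q - 1) * (N - j)) * (x.choose j * M) := by gcongr
      _ = _ := by ring
  have A2 : q * (c * a) ≤ (q - 1) * (x.choose j * M) := Nat.le_of_mul_le_mul_left A1 hNj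
  have A3 : q * (c * (c * M)) ≤ x.choose j * M := by
    calc q * (c * (c * M)) = (q * (c * c)) * M := by ring
      _ ≤ x.choose j * M := by gcongr
  have A4 : q * (c * (a + c * M)) ≤ q * (x.choose j * M) := by
    calc q * (c * (a + c * M)) = q * (c * a) + q * (c * (c * M)) := by ring
      _ ≤ (q - 1) * (x.choose j * M) + x.choose j * M := by omega
      _ = ((q - 1) + 1) * (x.choose j * M) := by ring
      _ = q * (x.choose j * M) := by rw [Nat.sub_add_cancel hq1]
  exact Nat.le_of_mul_le_mul_left A4 (by omega)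

end Cross7592
end

section

/-!
# The core theorem: families of `κ`-subsets of `V` without a tuple whose intersection has size `j`
-/

namespace Cross7592
open Finset

variable {n : ℕ}

structure Cfg (r κ j : ℕ) (V : Finset (Fin n)) (𝒜 : Fin r → Finset (Finset (Fin n))) : Prop where
  sub : ∀ i, 𝒜 i ⊆ V.powersetCard κ
  ne : ∀ i, (𝒜 i).Nonempty
  avoid : ∀ A : Fin r → Finset (Fin n), (∀ i, A i ∈ 𝒜 i) → #(common A) ≠ j

section
variable {r κ j : ℕ} {V : Finset (Fin n)} {𝒜 : Fin r → Finset (Finset (Fin n))}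

theorem dich (h : Cfg r κ j V 𝒜) (l : Fin r) {A J : Finset (Fin n)} (hA : A ∈ 𝒜 l) (hJ : J ⊆ A)
    (hJc : #J = j) :
    (∃ i, i ≠ l ∧ ∀ F ∈ V.powersetCard κ, J ⊆ F → F ∉ 𝒜 i) ∨
    (∀ i, i ≠ l → ∀ F ∈ V.powersetCard κ, F ∩ A = J → F ∉ 𝒜 i) := by
  by_contra hc
  push Not at hc
  obtain ⟨h1, i0, hi0, F, hF, hFA, hF𝒜⟩ := hc
  choose! G hG using h1
  set T : Fin r → Finset (Fin n) := fun i => if i = l then A else if i = i0 then F else G i with hT
  refine h.avoid T ?_ ?_
  · intro i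
    simp only [hT]
    split_ifs with h1 h2
    · rw [h1]; exact hA
    · rw [h2]; exact hF𝒜
    · exact (hG i h1).2.2
  · have : common T = J := by
      ext x
      simp only [common, mem_filter, mem_univ, true_and]
      constructor
      · intro hx
        have h1 := hx l
        have h2 := hx i0
        simp only [hT, if_true, if_neg hi0] at h1 h2
        rw [← hFA]; exact mem_inter.2 ⟨h2, h1⟩
      · intro hx i
        simp only [hT]
        split_ifs with h1 h2
        · exact hJ hx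
        · rw [← hFA] at hx; exact (mem_inter.1 hx).1
        · exact (hG i h1).2.1 hx
    rw [this, hJc]

/-- (Step 2) -/
theorem star_deficit (h : Cfg r κ j V 𝒜) (hr : 3 ≤ r) (hjκ : j < κ) (l : Fin r)
    {A J : Finset (Fin n)} (hA : A ∈ 𝒜 l) (hJ : J ⊆ A) (hJc : #J = j)
    (hN : (#V - j).choose (κ - j) ≤ 2 * (#V - κ).choose (κ - j)) :
    (#V - j).choose (κ - j) ≤
      ∑ i ∈ univ.erase l, #((V.powersetCard κ \ 𝒜 i).filter fun F => J ⊆ F) := by
  have hAV := mem_powersetCard.1 (h.sub l hA)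
  rcases dich h l hA hJ hJc with ⟨i, hi, H⟩ | H
  · have h1 : (#V - j).choose (κ - j) ≤ #((V.powersetCard κ \ 𝒜 i).filter fun F => J ⊆ F) := by
      rw [← hJc, ← card_star V J κ (hJ.trans hAV.1) (by omega)]
      apply card_le_card
      intro F hF
      rw [mem_filter] at hF ⊢
      exact ⟨mem_sdiff.2 ⟨hF.1, H F hF.1 hF.2⟩, hF.2⟩
    refine h1.trans ?_
    exact single_le_sum (f := fun i => #((V.powersetCard κ \ 𝒜 i).filter fun F => J ⊆ F))
      (fun _ _ => Nat.zero_le _) (mem_erase.2 ⟨hi, mem_univ _⟩)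
  · have h1 : ∀ i ∈ univ.erase l, (#V - κ).choose (κ - j) ≤
        #((V.powersetCard κ \ 𝒜 i).filter fun F => J ⊆ F) := by
      intro i hi
      have e1 : (#V - κ).choose (κ - j) = #((V.powersetCard κ).filter fun F => F ∩ A = J) := by
        rw [card_trace V A J κ hJ hAV.1 (by omega), hAV.2, hJc]
      rw [e1]
      apply card_le_card
      intro F hF
      rw [mem_filter] at hF ⊢
      refine ⟨mem_sdiff.2 ⟨hF.1, H i (mem_erase.1 hi).1 F hF.1 hF.2⟩, ?_⟩
      rw [← hF.2]; exact inter_subset_left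
    have h2 := card_nsmul_le_sum _ _ _ h1
    rw [card_erase_of_mem (mem_univ _), card_univ, Fintype.card_fin, smul_eq_mul] at h2
    refine hN.trans (le_trans ?_ h2)
    exact Nat.mul_le_mul_right _ (by omega)

/-- the `j`-subsets of members of the family `𝒜 l` -/
def Sh (j : ℕ) (𝒜 : Finset (Finset (Fin n))) : Finset (Finset (Fin n)) :=
  𝒜.biUnion fun A => A.powersetCard j

theorem mem_Sh {𝒜 : Finset (Finset (Fin n))} {J : Finset (Fin n)} :
    J ∈ Sh j 𝒜 ↔ ∃ A ∈ 𝒜, J ⊆ A ∧ #J = j := by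
  simp [Sh, mem_powersetCard]

/-- double counting of pairs `J ⊆ F` -/
theorem sum_star (𝒥 ℱ : Finset (Finset (Fin n))) (c : ℕ)
    (hc : ∀ F ∈ ℱ, #(𝒥.filter fun J => J ⊆ F) ≤ c) :
    ∑ J ∈ 𝒥, #(ℱ.filter fun F => J ⊆ F) ≤ c * #ℱ := by
  have h1 : ∑ J ∈ 𝒥, #(ℱ.filter fun F => J ⊆ F) = ∑ F ∈ ℱ, #(𝒥.filter fun J => J ⊆ F) :=
    sum_card_bipartiteAbove_eq_sum_card_bipartiteBelow (fun J F : Finset (Fin n) => J ⊆ F)
  rw [h1]
  have := sum_le_card_nsmul _ _ _ hc
  rw [smul_eq_mul] at this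
  rw [mul_comm]; exact this

theorem filter_Sh_le {𝒜 : Finset (Finset (Fin n))} {F : Finset (Fin n)} (hF : #F = κ) :
    #((Sh j 𝒜).filter fun J => J ⊆ F) ≤ κ.choose j := by
  rw [← hF, ← card_powersetCard]
  apply card_le_card
  intro J hJ
  rw [mem_filter, mem_Sh] at hJ
  obtain ⟨⟨A, _, _, h2⟩, h3⟩ := hJ
  exact mem_powersetCard.2 ⟨h3, h2⟩

/-- (Step 3) -/
theorem deficit_ge (h : Cfg r κ j V 𝒜) (hr : 3 ≤ r) (hjκ : j < κ) (l : Fin r)
    (hN : (#V - j).choose (κ - j) ≤ 2 * (#V - κ).choose (κ - j)) :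
    #(Sh j (𝒜 l)) * (#V - j).choose (κ - j) ≤
      κ.choose j * ∑ i ∈ univ.erase l, #(V.powersetCard κ \ 𝒜 i) := by
  have h1 : #(Sh j (𝒜 l)) * (#V - j).choose (κ - j) ≤
      ∑ J ∈ Sh j (𝒜 l), ∑ i ∈ univ.erase l, #((V.powersetCard κ \ 𝒜 i).filter fun F => J ⊆ F) := by
    have := card_nsmul_le_sum (Sh j (𝒜 l)) _ _ (fun J hJ => by
      obtain ⟨A, hA, hJA, hJc⟩ := mem_Sh.1 hJ
      exact star_deficit h hr hjκ l hA hJA hJc hN)
    rwa [smul_eq_mul] at this
  refine h1.trans ?_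
  rw [sum_comm, mul_sum]
  apply sum_le_sum
  intro i _
  apply sum_star
  intro F hF
  exact filter_Sh_le (mem_powersetCard.1 (mem_sdiff.1 hF).1).2

/-- local LYM -/
theorem lym (h : Cfg r κ j V 𝒜) (hjκ : j < κ) (l : Fin r) :
    κ.choose j * #(𝒜 l) ≤ #(Sh j (𝒜 l)) * (#V - j).choose (κ - j) := by
  have h1 : ∑ J ∈ Sh j (𝒜 l), #((𝒜 l).filter fun F => J ⊆ F) =
      ∑ F ∈ 𝒜 l, #((Sh j (𝒜 l)).filter fun J => J ⊆ F) :=
    sum_card_bipartiteAbove_eq_sum_card_bipartiteBelow (fun J F : Finset (Fin n) => J ⊆ F)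
  have h2 : #(𝒜 l) • κ.choose j ≤ ∑ F ∈ 𝒜 l, #((Sh j (𝒜 l)).filter fun J => J ⊆ F) := by
    apply card_nsmul_le_sum
    intro F hF
    rw [← (mem_powersetCard.1 (h.sub l hF)).2, ← card_powersetCard]
    apply card_le_card
    intro J hJ
    rw [mem_powersetCard] at hJ
    rw [mem_filter, mem_Sh]
    exact ⟨⟨F, hF, hJ.1, hJ.2⟩, hJ.1⟩
  have h3 : ∑ J ∈ Sh j (𝒜 l), #((𝒜 l).filter fun F => J ⊆ F) ≤
      #(Sh j (𝒜 l)) • (#V - j).choose (κ - j) := by
    apply sum_le_card_nsmul
    intro J hJ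
    obtain ⟨A, hA, hJA, hJc⟩ := mem_Sh.1 hJ
    rw [← hJc, ← card_star V J κ (hJA.trans (mem_powersetCard.1 (h.sub l hA)).1) (by omega)]
    exact card_le_card (filter_subset_filter _ (h.sub l))
  rw [smul_eq_mul] at h2 h3
  rw [mul_comm (κ.choose j)]
  omega

/-- Kruskal-Katona -/
theorem kk (h : Cfg r κ j V 𝒜) (hjκ : j < κ) (l : Fin r) (x : ℕ) (hκx : κ ≤ x) (hx : x ≤ #V)
    (hc : x.choose κ ≤ #(𝒜 l)) : x.choose j ≤ #(Sh j (𝒜 l)) := by
  have hVn : #V ≤ n := by simpa using card_le_univ V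
  have h1 := kruskal_katona_lovasz_form (𝒜 := 𝒜 l) (i := κ - j) (r := κ) (k := x) (by omega) hκx
    (by omega) (fun F hF => (mem_powersetCard.1 (h.sub l hF)).2) hc
  have e : κ - (κ - j) = j := by omega
  rw [e] at h1
  refine h1.trans (card_le_card ?_)
  intro J hJ
  obtain ⟨F, hF, hJF, hc⟩ := mem_shadow_iterate_iff_exists_sdiff.1 hJ
  rw [mem_Sh]
  refine ⟨F, hF, hJF, ?_⟩
  have h2 := (mem_powersetCard.1 (h.sub l hF)).2
  rw [card_sdiff_of_subset hJF] at hc
  have := card_le_card hJF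
  omega

/-- disjoint traces -/
theorem trace_deficit (h : Cfg r κ j V 𝒜) (hr : 3 ≤ r) (hjκ : j < κ) (l : Fin r)
    (Z : Finset (Fin n)) (hZ : Z ⊆ V) (𝒥 : Finset (Finset (Fin n)))
    (h𝒥 : ∀ J ∈ 𝒥, #J = j ∧ ∃ A ∈ 𝒜 l, J ⊆ A ∧ A ⊆ Z) :
    #𝒥 * (#V - #Z).choose (κ - j) ≤ ∑ i ∈ univ.erase l, #(V.powersetCard κ \ 𝒜 i) := by
  have h1 : ∀ i : Fin r, ∑ J ∈ 𝒥, #((V.powersetCard κ \ 𝒜 i).filter fun F => F ∩ Z = J) ≤
      #(V.powersetCard κ \ 𝒜 i) := by
    intro i
    rw [← card_biUnion]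
    · apply card_le_card
      intro F hF
      rw [mem_biUnion] at hF
      obtain ⟨J, _, hF⟩ := hF
      exact (mem_filter.1 hF).1
    · intro J _ J' _ hne
      rw [Function.onFun, disjoint_left]
      intro F h1 h2
      rw [mem_filter] at h1 h2
      exact hne (h1.2.symm.trans h2.2)
  have h2 : ∑ J ∈ 𝒥, ∑ i ∈ univ.erase l, #((V.powersetCard κ \ 𝒜 i).filter fun F => F ∩ Z = J) ≤
      ∑ i ∈ univ.erase l, #(V.powersetCard κ \ 𝒜 i) := by
    rw [sum_comm]
    exact sum_le_sum fun i _ => h1 i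
  refine le_trans ?_ h2
  rw [← smul_eq_mul]
  apply card_nsmul_le_sum
  intro J hJ
  obtain ⟨hJc, A, hA, hJA, hAZ⟩ := h𝒥 J hJ
  obtain ⟨i, hi, H⟩ : ∃ i, i ≠ l ∧ ∀ F ∈ V.powersetCard κ, F ∩ Z = J → F ∉ 𝒜 i := by
    rcases dich h l hA hJA hJc with ⟨i, hi, H⟩ | H
    · refine ⟨i, hi, fun F hF hFZ => H F hF ?_⟩
      rw [← hFZ]; exact inter_subset_left
    · obtain ⟨i, hi⟩ : ∃ i : Fin r, i ≠ l := by
        have : 1 < Fintype.card (Fin r) := by rw [Fintype.card_fin]; omega
        obtain ⟨i, hi⟩ := Fintype.exists_ne_of_one_lt_card this l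
        exact ⟨i, hi⟩
      refine ⟨i, hi, fun F hF hFZ => H i hi F hF ?_⟩
      ext x
      constructor
      · intro hx
        rw [mem_inter] at hx
        rw [← hFZ]; exact mem_inter.2 ⟨hx.1, hAZ hx.2⟩
      · intro hx
        refine mem_inter.2 ⟨?_, hJA hx⟩
        rw [← hFZ] at hx; exact (mem_inter.1 hx).1
  have h3 : (#V - #Z).choose (κ - j) ≤
      #((V.powersetCard κ \ 𝒜 i).filter fun F => F ∩ Z = J) := by
    rw [← hJc, ← card_trace V Z J κ (hJA.trans hAZ) hZ (by omega)]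
    apply card_le_card
    intro F hF
    rw [mem_filter] at hF ⊢
    exact ⟨mem_sdiff.2 ⟨hF.1, H F hF.1 hF.2⟩, hF.2⟩
  refine h3.trans ?_
  exact single_le_sum (f := fun i => #((V.powersetCard κ \ 𝒜 i).filter fun F => F ∩ Z = J))
    (fun _ _ => Nat.zero_le _) (mem_erase.2 ⟨hi, mem_univ _⟩)

end

end Cross7592
end

section

/-!
# The core theorem
-/

namespace Cross7592
open Finset

variable {n : ℕ}

theorem card_lt_eq (V A : Finset (Fin n)) (κ j : ℕ) (hA : A ⊆ V) (hAc : #A = κ) (hjκ : j < κ) :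
    #((V.powersetCard κ).filter fun F => #(F ∩ A) < j) =
      ∑ i ∈ range j, κ.choose i * (#V - κ).choose (κ - i) := by
  have h := card_inter_mem V A κ hA (range j) (fun i hi => by rw [mem_range] at hi; omega)
  rw [hAc] at h
  rw [← h]
  congr 1
  ext F
  simp only [mem_filter, mem_range]

theorem card_ge_le (V A : Finset (Fin n)) (κ i : ℕ) (hA : A ⊆ V) (hAc : #A = κ) (hi : i ≤ κ) :
    #((V.powersetCard κ).filter fun F => i ≤ #(F ∩ A)) ≤
      κ.choose i * (#V - i).choose (κ - i) := by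
  have h1 : (V.powersetCard κ).filter (fun F => i ≤ #(F ∩ A)) ⊆
      (A.powersetCard i).biUnion fun J => (V.powersetCard κ).filter fun F => J ⊆ F := by
    intro F hF
    rw [mem_filter] at hF
    obtain ⟨J, hJ, hJc⟩ := exists_subset_card_eq hF.2
    rw [mem_biUnion]
    exact ⟨J, mem_powersetCard.2 ⟨hJ.trans inter_subset_right, hJc⟩,
      mem_filter.2 ⟨hF.1, hJ.trans inter_subset_left⟩⟩
  refine (card_le_card h1).trans ?_
  have h2 := card_biUnion_le_card_mul (A.powersetCard i)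
    (fun J => (V.powersetCard κ).filter fun F => J ⊆ F) ((#V - i).choose (κ - i)) (by
      intro J hJ
      rw [mem_powersetCard] at hJ
      rw [card_star V J κ (hJ.1.trans hA) (by omega), hJ.2])
  rwa [card_powersetCard, hAc] at h2

theorem core (r κ j : ℕ) (hr : 3 ≤ r) (hj : 1 ≤ j) (hjκ : j < κ) : ∃ N₀ : ℕ, ∀ (n : ℕ)
    (V : Finset (Fin n)) (𝒜 : Fin r → Finset (Finset (Fin n))), N₀ ≤ #V → Cfg r κ j V 𝒜 →
    (r - 2) * (#V).choose κ + 1 + ∑ i ∈ range j, κ.choose i * (#V - κ).choose (κ - i) ≤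
      ∑ i, #(𝒜 i) →
    ∃ A ∈ V.powersetCard κ, ∃ l l' : Fin r, l ≠ l' ∧ 𝒜 l = {A} ∧
      𝒜 l' = ((V.powersetCard κ).filter fun F => #(F ∩ A) < j) ∧
      ∀ i, i ≠ l → i ≠ l' → 𝒜 i = V.powersetCard κ := by
  obtain ⟨X₀, N5, h5⟩ := num5 r κ j hr hj hjκ
  obtain ⟨m, hm⟩ : ∃ m, κ - j = m + 1 := ⟨κ - j - 1, by omega⟩
  obtain ⟨N1, h1⟩ := choose_dom (κ - j) j κ m
  obtain ⟨N2, h2⟩ := choose_dom (X₀.choose κ + κ.choose j * (2 * κ - j) + 1) j (2 * κ) m
  obtain ⟨N3, h3⟩ := choose_dom (κ.choose (j + 1) + 1) (j + 1) κ m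
  refine ⟨N5 + N1 + N2 + N3 + 4 * κ + 4, ?_⟩
  intro n V 𝒜 hV h hsum
  set N := #V with hN
  set P := V.powersetCard κ with hP
  have hPc : #P = N.choose κ := card_powersetCard _ _
  have hm' : κ - (j + 1) = m := by omega
  -- numerical facts
  have g1 : (N - j).choose (κ - j) ≤ 2 * (N - κ).choose (κ - j) := by
    have a1 := choose_sub_le N j κ m hjκ.le (by omega)
    have a2 := h1 N (by omega)
    rw [hm]; omega
  have p1 : 1 ≤ (N - j).choose m := Nat.choose_pos (by omega)
  have p2 : 1 ≤ (N - (j + 1)).choose m := Nat.choose_pos (by omega)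
  have cpos : 0 < κ.choose j := Nat.choose_pos hjκ.le
  -- complements
  have hcomp : ∀ i, #(𝒜 i) + #(P \ 𝒜 i) = N.choose κ := by
    intro i
    rw [← hPc, add_comm]
    exact card_sdiff_add_card_eq_card (h.sub i)
  set W : ℕ := ∑ i ∈ range j, κ.choose i * (N - κ).choose (κ - i) with hW
  have htot : ∑ i, #(𝒜 i) + ∑ i, #(P \ 𝒜 i) = r * N.choose κ := by
    rw [← sum_add_distrib, sum_congr rfl (fun i _ => hcomp i), sum_const, card_univ,
      Fintype.card_fin, smul_eq_mul]
  -- the deficit without `l`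
  have hS : ∀ l : Fin r, #(P \ 𝒜 l) + ∑ i ∈ univ.erase l, #(P \ 𝒜 i) = ∑ i, #(P \ 𝒜 i) :=
    fun l => add_sum_erase univ (fun i => #(P \ 𝒜 i)) (mem_univ l)
  have hr2 : r * N.choose κ = (r - 2) * N.choose κ + 2 * N.choose κ := by
    rw [← add_mul]; congr 1; omega
  have key : ∀ l : Fin r, ∑ i ∈ univ.erase l, #(P \ 𝒜 i) + 1 + W ≤ N.choose κ + #(𝒜 l) := by
    intro l
    have a1 := hS l
    have a2 := hcomp l
    omega
  have hdef : ∀ l : Fin r, #(Sh j (𝒜 l)) * (N - j).choose (κ - j) ≤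
      κ.choose j * ∑ i ∈ univ.erase l, #(P \ 𝒜 i) := fun l => deficit_ge h hr hjκ l g1
  have hS2 : ∀ l : Fin r, #(𝒜 l) ≤ ∑ i ∈ univ.erase l, #(P \ 𝒜 i) := by
    intro l
    have a1 := lym h hjκ l
    have a2 := hdef l
    exact Nat.le_of_mul_le_mul_left (a1.trans a2) cpos
  -- Step 4: a family with a large complement
  obtain ⟨l, hl⟩ : ∃ l : Fin r, N.choose κ ≤ r * #(P \ 𝒜 l) := by
    by_contra hc
    push Not at hc
    have l0 : Fin r := ⟨0, by omega⟩
    have a1 : ∑ i : Fin r, r * #(P \ 𝒜 i) < ∑ _i : Fin r, N.choose κ :=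
      sum_lt_sum_of_nonempty ⟨l0, mem_univ _⟩ (fun i _ => hc i)
    rw [← mul_sum, sum_const, card_univ, Fintype.card_fin, smul_eq_mul] at a1
    have a2 : ∑ i, #(P \ 𝒜 i) < N.choose κ := Nat.lt_of_mul_lt_mul_left a1
    have a3 := hS l0
    have a4 := hS2 l0
    have a5 := hcomp l0
    omega
  obtain ⟨A, hA⟩ := h.ne l
  have hAP := mem_powersetCard.1 (h.sub l hA)
  have hWA := card_lt_eq V A κ j hAP.1 hAP.2 hjκ
  -- the set of `F` with `j ≤ |F ∩ A|`
  set D : ℕ := #(P.filter fun F => j ≤ #(F ∩ A)) with hD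
  have hDW : D + W = N.choose κ := by
    rw [hD, hW, ← hWA, ← hPc, add_comm]
    have := card_filter_add_card_filter_not (s := P) (fun F => #(F ∩ A) < j)
    simp only [not_lt] at this
    exact this
  have hD1 : D ≤ κ.choose j * (N - j).choose (κ - j) := card_ge_le V A κ j hAP.1 hAP.2 hjκ.le
  have hD2 : D ≤ κ.choose j * (N - κ).choose (κ - j) +
      κ.choose (j + 1) * (N - (j + 1)).choose (κ - (j + 1)) := by
    have a1 : P.filter (fun F => j ≤ #(F ∩ A)) ⊆
        P.filter (fun F => #(F ∩ A) = j) ∪ P.filter (fun F => j + 1 ≤ #(F ∩ A)) := by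
      intro F hF
      rw [mem_union, mem_filter, mem_filter]
      rw [mem_filter] at hF
      rcases Nat.lt_or_ge j (#(F ∩ A)) with h1 | h1
      · right; exact ⟨hF.1, h1⟩
      · left; exact ⟨hF.1, by omega⟩
    have a2 := (card_le_card a1).trans (card_union_le _ _)
    rw [card_inter_eq V A κ j hAP.1 hjκ.le, hAP.2] at a2
    have a3 := card_ge_le V A κ (j + 1) hAP.1 hAP.2 (by omega)
    rw [← hN] at a2 a3
    rw [← hP] at a3
    omega
  have keyl : ∑ i ∈ univ.erase l, #(P \ 𝒜 i) + 1 ≤ #(𝒜 l) + D := by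
    have := key l
    omega
  -- Step 5: `𝒜 l` is bounded
  have hsmall : #(𝒜 l) < X₀.choose κ := by
    by_contra hc
    push Not at hc
    have hra : r * #(𝒜 l) ≤ (r - 1) * N.choose κ := by
      have a1 := hcomp l
      have a2 : r * #(𝒜 l) + r * #(P \ 𝒜 l) = r * N.choose κ := by rw [← mul_add, a1]
      have a3 : (r - 1) * N.choose κ + N.choose κ = r * N.choose κ := by
        rw [← Nat.succ_mul]; congr 1; omega
      omega
    obtain ⟨x, hx1, hx2, hx3, hx4⟩ := h5 N (by omega) _ hc hra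
    have a1 := kk h hjκ l x hx1 hx2 hx3
    have a2 : κ.choose j * (#(𝒜 l) + κ.choose j * (N - j).choose (κ - j)) ≤
        κ.choose j * ∑ i ∈ univ.erase l, #(P \ 𝒜 i) :=
      hx4.trans ((Nat.mul_le_mul_right _ a1).trans (hdef l))
    have a3 := Nat.le_of_mul_le_mul_left a2 cpos
    omega
  -- Step 6: `𝒜 l` is a singleton
  have hone : 𝒜 l = {A} := by
    by_contra hne
    obtain ⟨A', hA', hAA⟩ : ∃ A' ∈ 𝒜 l, A' ≠ A := by
      by_contra hc
      push Not at hc
      exact hne (eq_singleton_iff_unique_mem.2 ⟨hA, hc⟩)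
    have hAP' := mem_powersetCard.1 (h.sub l hA')
    obtain ⟨x, hx, hxA⟩ : ∃ x ∈ A', x ∉ A := by
      by_contra hc
      push Not at hc
      exact hAA (eq_of_subset_of_card_le hc (by omega))
    obtain ⟨J₁, hJ₁, hJ₁c⟩ : ∃ J₁ ⊆ A'.erase x, #J₁ = j - 1 :=
      exists_subset_card_eq (by rw [card_erase_of_mem hx]; omega)
    have hxJ₁ : x ∉ J₁ := fun hh => (mem_erase.1 (hJ₁ hh)).1 rfl
    set J' := insert x J₁ with hJ'
    have hJ'c : #J' = j := by rw [hJ', card_insert_of_notMem hxJ₁, hJ₁c]; omega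
    have hJ'A : J' ⊆ A' := by
      rw [hJ']; exact insert_subset hx (hJ₁.trans (erase_subset _ _))
    have hJ'nA : J' ∉ A.powersetCard j := by
      intro hh
      exact hxA ((mem_powersetCard.1 hh).1 (mem_insert_self _ _))
    have a1 := trace_deficit h hr hjκ l (A ∪ A') (union_subset hAP.1 hAP'.1)
      (insert J' (A.powersetCard j)) (by
        intro J hJ
        rw [mem_insert] at hJ
        rcases hJ with rfl | hJ
        · exact ⟨hJ'c, A', hA', hJ'A, subset_union_right⟩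
        · rw [mem_powersetCard] at hJ
          exact ⟨hJ.2, A, hA, hJ.1, subset_union_left⟩)
    rw [card_insert_of_notMem hJ'nA, card_powersetCard, hAP.2] at a1
    have a2 : #(A ∪ A') ≤ 2 * κ := by
      have := card_union_le A A'
      omega
    have a3 : (N - 2 * κ).choose (κ - j) ≤ (N - #(A ∪ A')).choose (κ - j) :=
      Nat.choose_le_choose _ (by omega)
    have a4 : (κ.choose j + 1) * (N - 2 * κ).choose (κ - j) ≤
        ∑ i ∈ univ.erase l, #(P \ 𝒜 i) := (Nat.mul_le_mul_left _ a3).trans a1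
    have a5 := choose_sub_le N j (2 * κ) m (by omega) (by omega)
    have a6 := h2 N (by omega)
    rw [hm] at a4 hD1
    have a7 : κ.choose j * (N - j).choose (m + 1) ≤ κ.choose j * (N - 2 * κ).choose (m + 1) +
        κ.choose j * ((2 * κ - j) * (N - j).choose m) := by
      rw [← mul_add]; exact Nat.mul_le_mul_left _ a5
    have a8 : (X₀.choose κ + κ.choose j * (2 * κ - j) + 1) * (N - j).choose m =
        X₀.choose κ * (N - j).choose m + κ.choose j * ((2 * κ - j) * (N - j).choose m) +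
          (N - j).choose m := by ring
    have a9 : X₀.choose κ * 1 ≤ X₀.choose κ * (N - j).choose m := Nat.mul_le_mul_left _ p1
    have a10 : (κ.choose j + 1) * (N - 2 * κ).choose (m + 1) =
        κ.choose j * (N - 2 * κ).choose (m + 1) + (N - 2 * κ).choose (m + 1) := by ring
    omega
  have hl1 : #(𝒜 l) = 1 := by rw [hone, card_singleton]
  have keyl' : ∑ i ∈ univ.erase l, #(P \ 𝒜 i) ≤ D := by omega
  -- Step 7
  have hal : ∀ J ∈ A.powersetCard j, ∃ i, i ≠ l ∧ ∀ F ∈ P, J ⊆ F → F ∉ 𝒜 i := by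
    intro J₀ hJ₀
    rw [mem_powersetCard] at hJ₀
    rcases dich h l hA hJ₀.1 hJ₀.2 with H | H
    · exact H
    · exfalso
      -- disjoint traces on `A`
      have b1 : ∀ i ∈ univ.erase l, ∑ J ∈ A.powersetCard j,
          #((P \ 𝒜 i).filter fun F => F ∩ A = J) ≤ #(P \ 𝒜 i) := by
        intro i _
        rw [← card_biUnion]
        · apply card_le_card
          intro F hF
          rw [mem_biUnion] at hF
          obtain ⟨J, _, hF⟩ := hF
          exact (mem_filter.1 hF).1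
        · intro J _ J' _ hne
          rw [Function.onFun, disjoint_left]
          intro F h1 h2
          rw [mem_filter] at h1 h2
          exact hne (h1.2.symm.trans h2.2)
      have b2 : ∑ J ∈ A.powersetCard j, ∑ i ∈ univ.erase l,
          #((P \ 𝒜 i).filter fun F => F ∩ A = J) ≤ ∑ i ∈ univ.erase l, #(P \ 𝒜 i) := by
        rw [sum_comm]; exact sum_le_sum b1
      -- full traces
      have b3 : ∀ J ∈ A.powersetCard j, ∀ i : Fin r, (∀ F ∈ P, F ∩ A = J → F ∉ 𝒜 i) →
          (N - κ).choose (κ - j) ≤ #((P \ 𝒜 i).filter fun F => F ∩ A = J) := by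
        intro J hJ i hi
        rw [mem_powersetCard] at hJ
        have e1 := card_trace V A J κ hJ.1 hAP.1 (by omega)
        rw [hJ.2, hAP.2] at e1
        rw [← hN] at e1
        rw [← e1]
        apply card_le_card
        intro F hF
        rw [mem_filter] at hF ⊢
        exact ⟨mem_sdiff.2 ⟨hF.1, hi F hF.1 hF.2⟩, hF.2⟩
      have b4 : ∀ J ∈ A.powersetCard j, (N - κ).choose (κ - j) ≤ ∑ i ∈ univ.erase l,
          #((P \ 𝒜 i).filter fun F => F ∩ A = J) := by
        intro J hJ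
        have hJ' := mem_powersetCard.1 hJ
        obtain ⟨i, hi, hi2⟩ : ∃ i, i ≠ l ∧ ∀ F ∈ P, F ∩ A = J → F ∉ 𝒜 i := by
          rcases dich h l hA hJ'.1 hJ'.2 with ⟨i, hi, H⟩ | H
          · exact ⟨i, hi, fun F hF hFA => H F hF (by rw [← hFA]; exact inter_subset_left)⟩
          · have : 1 < Fintype.card (Fin r) := by rw [Fintype.card_fin]; omega
            obtain ⟨i, hi⟩ := Fintype.exists_ne_of_one_lt_card this l
            exact ⟨i, hi, H i hi⟩
        exact (b3 J hJ i hi2).trans (single_le_sum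
          (f := fun i => #((P \ 𝒜 i).filter fun F => F ∩ A = J))
          (fun _ _ => Nat.zero_le _) (mem_erase.2 ⟨hi, mem_univ _⟩))
      have hJ₀' : J₀ ∈ A.powersetCard j := mem_powersetCard.2 hJ₀
      have b5 : 2 * (N - κ).choose (κ - j) ≤ ∑ i ∈ univ.erase l,
          #((P \ 𝒜 i).filter fun F => F ∩ A = J₀) := by
        have c1 := card_nsmul_le_sum (univ.erase l)
          (fun i => #((P \ 𝒜 i).filter fun F => F ∩ A = J₀)) ((N - κ).choose (κ - j))
          (fun i hi => b3 J₀ hJ₀' i (H i (mem_erase.1 hi).1))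
        rw [card_erase_of_mem (mem_univ _), card_univ, Fintype.card_fin, smul_eq_mul] at c1
        exact (Nat.mul_le_mul_right _ (by omega)).trans c1
      have b6 : (κ.choose j + 1) * (N - κ).choose (κ - j) ≤ ∑ J ∈ A.powersetCard j,
          ∑ i ∈ univ.erase l, #((P \ 𝒜 i).filter fun F => F ∩ A = J) := by
        rw [← add_sum_erase _ _ hJ₀']
        have c1 := card_nsmul_le_sum ((A.powersetCard j).erase J₀)
          (fun J => ∑ i ∈ univ.erase l, #((P \ 𝒜 i).filter fun F => F ∩ A = J))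
          ((N - κ).choose (κ - j)) (fun J hJ => b4 J (mem_erase.1 hJ).2)
        rw [card_erase_of_mem hJ₀', card_powersetCard, hAP.2, smul_eq_mul] at c1
        have c2 : (κ.choose j + 1) * (N - κ).choose (κ - j) =
            2 * (N - κ).choose (κ - j) + (κ.choose j - 1) * (N - κ).choose (κ - j) := by
          rw [← add_mul]; congr 1; omega
        omega
      have b7 := h3 N (by omega)
      rw [hm'] at hD2
      rw [← hm] at b7
      have b8 : (κ.choose (j + 1) + 1) * (N - (j + 1)).choose m =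
          κ.choose (j + 1) * (N - (j + 1)).choose m + (N - (j + 1)).choose m := by ring
      have b9 : (κ.choose j + 1) * (N - κ).choose (κ - j) =
          κ.choose j * (N - κ).choose (κ - j) + (N - κ).choose (κ - j) := by ring
      omega
  -- counting in `W`
  have hcov : ∀ F ∈ P.filter (fun F => j ≤ #(F ∩ A)), ∃ i ∈ univ.erase l, F ∈ P \ 𝒜 i := by
    intro F hF
    rw [mem_filter] at hF
    obtain ⟨J, hJ, hJc⟩ := exists_subset_card_eq hF.2
    obtain ⟨i, hi, H⟩ := hal J (mem_powersetCard.2 ⟨hJ.trans inter_subset_right, hJc⟩)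
    exact ⟨i, mem_erase.2 ⟨hi, mem_univ _⟩,
      mem_sdiff.2 ⟨hF.1, H F hF.1 (hJ.trans inter_subset_left)⟩⟩
  have hdc : ∑ i ∈ univ.erase l, #(P \ 𝒜 i) =
      ∑ F ∈ P, #((univ.erase l).filter fun i => F ∉ 𝒜 i) := by
    have e1 : ∀ i, P \ 𝒜 i = P.filter fun F => F ∉ 𝒜 i := fun i => by
      ext F; simp [mem_sdiff]
    rw [sum_congr rfl (fun i _ => by rw [e1 i])]
    exact sum_card_bipartiteAbove_eq_sum_card_bipartiteBelow
      (fun (i : Fin r) (F : Finset (Fin n)) => F ∉ 𝒜 i)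
  have hind : D = ∑ F ∈ P, (if j ≤ #(F ∩ A) then 1 else 0) := by
    rw [hD, card_filter]
  have hle : ∀ F ∈ P, (if j ≤ #(F ∩ A) then 1 else 0) ≤
      #((univ.erase l).filter fun i => F ∉ 𝒜 i) := by
    intro F hF
    split_ifs with h1
    · obtain ⟨i, hi, hFi⟩ := hcov F (mem_filter.2 ⟨hF, h1⟩)
      exact card_pos.2 ⟨i, mem_filter.2 ⟨hi, (mem_sdiff.1 hFi).2⟩⟩
    · exact Nat.zero_le _
  have hsumle := sum_le_sum hle
  rw [← hind, ← hdc] at hsumle
  have heq : ∑ F ∈ P, (if j ≤ #(F ∩ A) then 1 else 0) =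
      ∑ F ∈ P, #((univ.erase l).filter fun i => F ∉ 𝒜 i) := by
    rw [← hind, ← hdc]; omega
  have hall := (sum_eq_sum_iff_of_le hle).1 heq
  -- the family `l'`
  have hAA : j ≤ #(A ∩ A) := by rw [inter_self, hAP.2]; omega
  have hcA := hall A (h.sub l hA)
  rw [if_pos hAA] at hcA
  obtain ⟨l', hl'⟩ := card_eq_one.1 hcA.symm
  have hl'm : l' ∈ (univ.erase l).filter fun i => A ∉ 𝒜 i := by rw [hl']; exact mem_singleton_self _
  rw [mem_filter] at hl'm
  have hll' : l ≠ l' := fun e => (mem_erase.1 hl'm.1).1 e.symm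
  have hstar : ∀ J ∈ A.powersetCard j, ∀ F ∈ P, J ⊆ F → F ∉ 𝒜 l' := by
    intro J hJ
    obtain ⟨i, hi, H⟩ := hal J hJ
    have hi' : i ∈ (univ.erase l).filter fun i => A ∉ 𝒜 i :=
      mem_filter.2 ⟨mem_erase.2 ⟨hi, mem_univ _⟩, H A (h.sub l hA) (mem_powersetCard.1 hJ).1⟩
    rw [hl', mem_singleton] at hi'
    rw [← hi']; exact H
  have hl'W : ∀ F ∈ P, j ≤ #(F ∩ A) → F ∉ 𝒜 l' := by
    intro F hF hFA
    obtain ⟨J, hJ, hJc⟩ := exists_subset_card_eq hFA
    exact hstar J (mem_powersetCard.2 ⟨hJ.trans inter_subset_right, hJc⟩) F hF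
      (hJ.trans inter_subset_left)
  refine ⟨A, h.sub l hA, l, l', hll', hone, ?_, ?_⟩
  · ext F
    rw [mem_filter]
    constructor
    · intro hF
      refine ⟨h.sub l' hF, ?_⟩
      by_contra hc
      push Not at hc
      exact hl'W F (h.sub l' hF) hc hF
    · rintro ⟨hF, hFA⟩
      by_contra hc
      have h1 := hall F hF
      rw [if_neg (by omega)] at h1
      have h2 := card_eq_zero.1 h1.symm
      have : l' ∈ (univ.erase l).filter fun i => F ∉ 𝒜 i := mem_filter.2 ⟨hl'm.1, hc⟩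
      rw [h2] at this
      exact absurd this (notMem_empty _)
  · intro i hil hil'
    apply Subset.antisymm (h.sub i)
    intro F hF
    by_contra hc
    have hi : i ∈ (univ.erase l).filter fun i => F ∉ 𝒜 i :=
      mem_filter.2 ⟨mem_erase.2 ⟨hil, mem_univ _⟩, hc⟩
    have h1 := hall F hF
    by_cases hFA : j ≤ #(F ∩ A)
    · rw [if_pos hFA] at h1
      obtain ⟨i', hi'⟩ := card_eq_one.1 h1.symm
      have e1 : i = i' := by rw [hi'] at hi; exact mem_singleton.1 hi
      have e2 : l' ∈ (univ.erase l).filter fun i => F ∉ 𝒜 i :=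
        mem_filter.2 ⟨hl'm.1, hl'W F hF hFA⟩
      rw [hi', mem_singleton] at e2
      exact hil' (e1.trans e2.symm)
    · rw [if_neg hFA] at h1
      have h2 := card_eq_zero.1 h1.symm
      rw [h2] at hi
      exact absurd hi (notMem_empty _)

end Cross7592
end
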