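import Pool.Agent.Lib.MP_7592f8.Core2

section

/-!
# Properties of the extremal tuples
-/

namespace Cross7592
open Finset

variable {n : ℕ}

theorem common_subset {r : ℕ} (A : Fin r → Finset (Fin n)) (i : Fin r) : common A ⊆ A i := by
  intro x hx
  rw [common, mem_filter] at hx
  exact hx.2 i

theorem subset_common {r : ℕ} (A : Fin r → Finset (Fin n)) (T : Finset (Fin n))
    (h : ∀ i, T ⊆ A i) : T ⊆ common A := by
  intro x hx
  rw [common, mem_filter]
  exact ⟨mem_univ _, fun i => h i hx⟩

/-- lifting from the link of `T` -/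
theorem lift_image (T K : Finset (Fin n)) (k t j : ℕ) (hT : #T = t) (hK : #K = k) (hTK : T ⊆ K) :
    (univ : Finset (Finset (Fin n))).filter (fun F => #F = k ∧ T ⊆ F ∧ #(F ∩ K) < t + j) =
      (((univ \ T).powersetCard (k - t)).filter fun G => #(G ∩ (K \ T)) < j).image (T ∪ ·) := by
  have htk : t ≤ k := by rw [← hT, ← hK]; exact card_le_card hTK
  ext F
  simp only [mem_filter, mem_univ, true_and, mem_image, mem_powersetCard]
  constructor
  · rintro ⟨h1, h2, h3⟩
    refine ⟨F \ T, ⟨⟨sdiff_subset_sdiff (subset_univ _) Subset.rfl, ?_⟩, ?_⟩, ?_⟩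
    · rw [card_sdiff_of_subset h2, h1, hT]
    · have e1 : (F \ T) ∩ (K \ T) = (F ∩ K) \ T := by
        ext x; simp only [mem_inter, mem_sdiff]; tauto
      rw [e1, card_sdiff_of_subset (subset_inter h2 hTK), hT]
      have := card_le_card (subset_inter h2 hTK)
      omega
    · exact union_sdiff_of_subset h2
  · rintro ⟨G, ⟨⟨h1, h2⟩, h3⟩, rfl⟩
    have hd : Disjoint T G := (disjoint_of_subset_left h1 sdiff_disjoint).symm
    refine ⟨?_, subset_union_left, ?_⟩
    · rw [card_union_of_disjoint hd, hT, h2]; omega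
    · have e1 : (T ∪ G) ∩ K = T ∪ (G ∩ (K \ T)) := by
        ext x
        simp only [mem_inter, mem_union, mem_sdiff]
        constructor
        · rintro ⟨h1 | h1, h2⟩
          · exact Or.inl h1
          · by_cases hx : x ∈ T
            · exact Or.inl hx
            · exact Or.inr ⟨h1, h2, hx⟩
        · rintro (h1 | ⟨h1, h2, h3⟩)
          · exact ⟨Or.inl h1, hTK h1⟩
          · exact ⟨Or.inr h1, h2⟩
      rw [e1]
      refine lt_of_le_of_lt (card_union_le _ _) ?_
      omega

theorem injOn_union (T : Finset (Fin n)) (S : Finset (Finset (Fin n)))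
    (hS : ∀ G ∈ S, Disjoint T G) : Set.InjOn (T ∪ ·) (S : Set (Finset (Fin n))) := by
  intro G hG G' hG' h
  have h' : T ∪ G = T ∪ G' := h
  calc G = (T ∪ G) \ T := by rw [union_sdiff_left]; exact (sdiff_eq_self_of_disjoint (hS G hG).symm).symm
    _ = (T ∪ G') \ T := by rw [h']
    _ = G' := by rw [union_sdiff_left]; exact sdiff_eq_self_of_disjoint (hS G' hG').symm

theorem typeA_total {k r : ℕ} {L : Finset ℕ} (hL : ∀ l ∈ L, l ≤ k)
    {𝒜 : Fin r → Finset (Finset (Fin n))} (h : TypeA n k r L 𝒜) : total 𝒜 = valA n k r L := by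
  obtain ⟨K, hK, i₀, h1, h2⟩ := h
  have e0 : 𝒜 i₀ = (univ.powersetCard k).filter fun F => #(F ∩ K) ∈ L := by
    ext F
    rw [h2, mem_filter, mem_powersetCard]
    simp
  have e1 : #(𝒜 i₀) = ∑ l ∈ L, k.choose l * (n - k).choose (k - l) := by
    rw [e0, card_inter_mem univ K k (subset_univ _) L hL, hK, card_univ, Fintype.card_fin]
  have e2 : ∑ i ∈ univ.erase i₀, #(𝒜 i) = r - 1 := by
    rw [sum_congr rfl (fun i hi => by rw [h1 i (mem_erase.1 hi).1, card_singleton]), sum_const,
      card_erase_of_mem (mem_univ _), card_univ, Fintype.card_fin, smul_eq_mul, mul_one]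
  rw [total, ← add_sum_erase univ _ (mem_univ i₀), e1, e2, valA, add_comm]

theorem typeA_adm {k r : ℕ} (hr : 3 ≤ r) {L : Finset ℕ} (hn : ∃ l ∈ L, l ≤ k) (hn2 : 2 * k ≤ n)
    {𝒜 : Fin r → Finset (Finset (Fin n))} (h : TypeA n k r L 𝒜) : Adm n k r L 𝒜 := by
  obtain ⟨K, hK, i₀, h1, h2⟩ := h
  refine ⟨?_, ?_, ?_⟩
  · intro i F hF
    by_cases hi : i = i₀
    · subst hi; exact ((h2 F).1 hF).1
    · rw [h1 i hi, mem_singleton] at hF
      rw [hF, hK]
  · intro i
    by_cases hi : i = i₀
    · subst hi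
      obtain ⟨l, hl, hlk⟩ := hn
      obtain ⟨J, hJ, hJc⟩ : ∃ J ⊆ K, #J = l := exists_subset_card_eq (by omega)
      obtain ⟨G, hG, hGc⟩ : ∃ G ⊆ univ \ K, #G = k - l := exists_subset_card_eq (by
        rw [card_sdiff_of_subset (subset_univ _), card_univ, Fintype.card_fin, hK]; omega)
      have hGK : Disjoint G K := disjoint_of_subset_left hG sdiff_disjoint
      have hJG : Disjoint J G := (disjoint_of_subset_right hJ hGK).symm
      refine ⟨J ∪ G, (h2 _).2 ⟨?_, ?_⟩⟩
      · rw [card_union_of_disjoint hJG]; omega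
      · rw [union_inter_distrib_right, disjoint_iff_inter_eq_empty.1 hGK, union_empty,
          inter_eq_left.2 hJ, hJc]
        exact hl
    · rw [h1 i hi]; exact singleton_nonempty _
  · intro A hA
    have e : common A = A i₀ ∩ K := by
      apply Subset.antisymm
      · have : 1 < Fintype.card (Fin r) := by rw [Fintype.card_fin]; omega
        obtain ⟨i, hi⟩ := Fintype.exists_ne_of_one_lt_card this i₀
        have h3 := hA i
        rw [h1 i hi, mem_singleton] at h3
        refine subset_inter (common_subset A i₀) ?_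
        rw [← h3]; exact common_subset A i
      · apply subset_common
        intro i
        by_cases hi : i = i₀
        · subst hi; exact inter_subset_left
        · have h3 := hA i
          rw [h1 i hi, mem_singleton] at h3
          rw [h3]; exact inter_subset_right
    rw [e]
    exact ((h2 _).1 (hA i₀)).2

theorem typeB_total {k r t j : ℕ} (hr : 3 ≤ r) (hj : j < k - t) (hkn : k ≤ n)
    {𝒜 : Fin r → Finset (Finset (Fin n))} (h : TypeB n k r t j 𝒜) :
    total 𝒜 = valB n k r t j := by
  obtain ⟨T, K, hT, hK, hTK, l, l', hll, h1, h2, h3⟩ := h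
  have hVc : #(univ \ T : Finset (Fin n)) = n - t := by
    rw [card_sdiff_of_subset (subset_univ _), card_univ, Fintype.card_fin, hT]
  have e1 : #(𝒜 l') = ∑ i ∈ range j, (k - t).choose i * (n - k).choose (k - t - i) := by
    have a1 : 𝒜 l' = univ.filter (fun F => #F = k ∧ T ⊆ F ∧ #(F ∩ K) < t + j) := by
      ext F; rw [h2, mem_filter]; simp
    rw [a1, lift_image T K k t j hT hK hTK, card_image_of_injOn (injOn_union T _ ?_),
      card_lt_eq (univ \ T) (K \ T) (k - t) j (sdiff_subset_sdiff (subset_univ _) Subset.rfl)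
        (by rw [card_sdiff_of_subset hTK, hK, hT]) hj, hVc]
    · have : n - t - (k - t) = n - k := by omega
      rw [this]
    · intro G hG
      rw [mem_filter, mem_powersetCard] at hG
      exact (disjoint_of_subset_left hG.1.1 sdiff_disjoint).symm
  have e2 : ∀ i, i ≠ l → i ≠ l' → #(𝒜 i) = (n - t).choose (k - t) := by
    intro i hi hi'
    have a1 : 𝒜 i = (univ.powersetCard k).filter fun F => T ⊆ F := by
      ext F; rw [h3 i hi hi', mem_filter, mem_powersetCard]; simp
    rw [a1, card_star univ T k (subset_univ _) (by omega), card_univ, Fintype.card_fin, hT]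
  have e3 : #(𝒜 l) = 1 := by rw [h1, card_singleton]
  have hm : l' ∈ univ.erase l := mem_erase.2 ⟨hll.symm, mem_univ _⟩
  rw [total, ← add_sum_erase univ _ (mem_univ l), ← add_sum_erase _ _ hm, e1, e3,
    sum_congr rfl (fun i hi => e2 i (mem_erase.1 (mem_erase.1 hi).2).1 (mem_erase.1 hi).1),
    sum_const, card_erase_of_mem hm, card_erase_of_mem (mem_univ _), card_univ, Fintype.card_fin,
    smul_eq_mul, valB]
  have : r - 1 - 1 = r - 2 := by omega
  rw [this]
  ring

theorem typeB_adm {k r t j : ℕ} (hr : 3 ≤ r) (hj1 : 1 ≤ j) (hj : j < k - t) (hn : 2 * k ≤ n)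
    {L : Finset ℕ} (hL : ∀ i, i < j → t + i ∈ L)
    {𝒜 : Fin r → Finset (Finset (Fin n))} (h : TypeB n k r t j 𝒜) : Adm n k r L 𝒜 := by
  obtain ⟨T, K, hT, hK, hTK, l, l', hll, h1, h2, h3⟩ := h
  refine ⟨?_, ?_, ?_⟩
  · intro i F hF
    by_cases hi : i = l
    · rw [hi, h1, mem_singleton] at hF; rw [hF, hK]
    · by_cases hi' : i = l'
      · rw [hi'] at hF; exact ((h2 F).1 hF).1
      · exact ((h3 i hi hi' F).1 hF).1
  · intro i
    by_cases hi : i = l
    · rw [hi, h1]; exact singleton_nonempty _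
    · by_cases hi' : i = l'
      · rw [hi']
        obtain ⟨G, hG, hGc⟩ : ∃ G ⊆ univ \ K, #G = k - t := exists_subset_card_eq (by
          rw [card_sdiff_of_subset (subset_univ _), card_univ, Fintype.card_fin, hK]; omega)
        have hGK : Disjoint G K := disjoint_of_subset_left hG sdiff_disjoint
        have hTG : Disjoint T G := (disjoint_of_subset_right hTK hGK).symm
        refine ⟨T ∪ G, (h2 _).2 ⟨?_, subset_union_left, ?_⟩⟩
        · rw [card_union_of_disjoint hTG]; omega
        · rw [union_inter_distrib_right, disjoint_iff_inter_eq_empty.1 hGK, union_empty,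
            inter_eq_left.2 hTK, hT]
          omega
      · exact ⟨K, (h3 i hi hi' K).2 ⟨hK, hTK⟩⟩
  · intro A hA
    have hTc : T ⊆ common A := by
      apply subset_common
      intro i
      have h4 := hA i
      by_cases hi : i = l
      · rw [hi, h1, mem_singleton] at h4
        rw [hi, h4]; exact hTK
      · by_cases hi' : i = l'
        · rw [hi'] at h4 ⊢; exact ((h2 _).1 h4).2.1
        · exact ((h3 i hi hi' _).1 h4).2
    have hlt : #(common A) < t + j := by
      have h4 := hA l'
      have h5 := ((h2 _).1 h4).2.2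
      have h6 := hA l
      rw [h1, mem_singleton] at h6
      refine lt_of_le_of_lt (card_le_card (subset_inter (common_subset A l') ?_)) h5
      rw [← h6]; exact common_subset A l
    have hge := card_le_card hTc
    obtain ⟨i, hi⟩ : ∃ i, #(common A) = t + i := ⟨#(common A) - t, by omega⟩
    rw [hi]
    exact hL i (by omega)

end Cross7592
end

section

/-!
# Comparison of the values for large `n`
-/

namespace Cross7592
open Finset

/-- Vandermonde -/
theorem vdm (n k t : ℕ) (htk : t ≤ k) (hkn : k ≤ n) :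
    (n - t).choose (k - t) =
      ∑ i ∈ range (k - t + 1), (k - t).choose i * (n - k).choose (k - t - i) := by
  have e : n - t = (k - t) + (n - k) := by omega
  rw [e, Nat.add_choose_eq, Finset.Nat.sum_antidiagonal_eq_sum_range_succ_mk]

theorem valB_le (n k r t j : ℕ) (hr : 3 ≤ r) (htk : t ≤ k) (hkn : k ≤ n) (hj : j < k - t) :
    valB n k r t j ≤ (r - 1) * (n - t).choose (k - t) + 1 := by
  have h1 : ∑ i ∈ range j, (k - t).choose i * (n - k).choose (k - t - i) ≤
      (n - t).choose (k - t) := by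
    rw [vdm n k t htk hkn]
    exact sum_le_sum_of_subset (range_subset_range.2 (by omega))
  have h2 : (r - 1) * (n - t).choose (k - t) =
      (r - 2) * (n - t).choose (k - t) + (n - t).choose (k - t) := by
    rw [← Nat.succ_mul]; congr 1; omega
  rw [valB]
  omega

theorem le_valB (n k r t j : ℕ) (hj1 : 1 ≤ j) :
    (r - 2) * (n - t).choose (k - t) + 1 + (n - k).choose (k - t) ≤ valB n k r t j := by
  have h1 : (n - k).choose (k - t) ≤
      ∑ i ∈ range j, (k - t).choose i * (n - k).choose (k - t - i) := by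
    have := single_le_sum (f := fun i => (k - t).choose i * (n - k).choose (k - t - i))
      (s := range j) (fun _ _ => Nat.zero_le _) (mem_range.2 (show 0 < j by omega))
    simpa using this
  rw [valB]
  omega

theorem le_valA (n k r t : ℕ) (L : Finset ℕ) (ht : t ∈ L) :
    k.choose t * (n - k).choose (k - t) ≤ valA n k r L := by
  have := single_le_sum (f := fun l => k.choose l * (n - k).choose (k - l))
    (s := L) (fun _ _ => Nat.zero_le _) ht
  rw [valA]
  omega

/-- `C(n-k, k-t)` is close to `C(n-t, k-t)` -/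
theorem close (k t : ℕ) (htk : t + 1 ≤ k) (c : ℕ) : ∃ N₀ : ℕ, ∀ n, N₀ ≤ n →
    (n - t).choose (k - t) ≤ (n - k).choose (k - t) + (k - t) * (n - t).choose (k - t - 1) ∧
    c * (n - t).choose (k - t - 1) ≤ (n - t).choose (k - t) ∧
    1 ≤ (n - t).choose (k - t - 1) ∧
    (n - (t + 1)).choose (k - (t + 1)) ≤ (n - t).choose (k - t - 1) := by
  obtain ⟨m, hm⟩ : ∃ m, k - t = m + 1 := ⟨k - t - 1, by omega⟩
  obtain ⟨N₁, h1⟩ := choose_dom c t t m
  refine ⟨N₁ + 2 * k, fun n hn => ⟨?_, ?_, ?_, ?_⟩⟩
  · have := choose_sub_le n t k m (by omega) (by omega)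
    rw [hm]
    simpa [hm] using this
  · rw [hm]; simpa using h1 n (by omega)
  · exact Nat.choose_pos (by omega)
  · have e : k - (t + 1) = k - t - 1 := by omega
    rw [e]; exact Nat.choose_le_choose _ (by omega)

/-- the delicate comparison: `valA < valB` if `C(k,t) < r` -/
theorem valA_lt_valB (k r t j : ℕ) (hr : 3 ≤ r) (ht : 1 ≤ t) (hj1 : 1 ≤ j) (hj : j < k - t)
    (hrk : k.choose t < r) : ∃ N₀ : ℕ, ∀ n, N₀ ≤ n → ∀ L : Finset ℕ, (∀ l ∈ L, l ≤ k) →
      (∀ l ∈ L, t ≤ l) → t + j ∉ L → valA n k r L < valB n k r t j := by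
  obtain ⟨m, hm⟩ : ∃ m, k - t - 1 = m + 1 := ⟨k - t - 2, by omega⟩
  obtain ⟨N₁, h1⟩ := choose_dom r 0 k m
  refine ⟨N₁ + 2 * k, fun n hn L hL htL hjL => ?_⟩
  have hkn : k ≤ n := by omega
  have htk : t ≤ k := by omega
  set q : ℕ → ℕ := fun i => (n - k).choose (k - t - i) with hq
  -- rewrite `valA` as a sum over `i`
  have eA : ∑ l ∈ L, k.choose l * (n - k).choose (k - l) ≤
      ∑ i ∈ range (k - t + 1), (if t + i ∈ L then k.choose (t + i) else 0) * q i := by
    have a1 : ∑ l ∈ L, k.choose l * (n - k).choose (k - l) =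
        ∑ l ∈ L, (if t + (l - t) ∈ L then k.choose (t + (l - t)) else 0) * q (l - t) := by
      apply sum_congr rfl
      intro l hl
      have e1 : t + (l - t) = l := by have := htL l hl; omega
      have e2 : k - t - (l - t) = k - l := by have := htL l hl; omega
      rw [e1, if_pos hl, hq]
      dsimp only
      rw [e2]
    rw [a1]
    have a2 : Set.InjOn (fun l => l - t) (L : Set ℕ) := by
      intro a ha b hb hab
      have h1 := htL a ha
      have h2 := htL b hb
      have h3 : a - t = b - t := hab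
      omega
    have a3 : ∑ l ∈ L, (if t + (l - t) ∈ L then k.choose (t + (l - t)) else 0) * q (l - t) =
        ∑ i ∈ L.image (fun l => l - t), (if t + i ∈ L then k.choose (t + i) else 0) * q i :=
      (sum_image (f := fun i => (if t + i ∈ L then k.choose (t + i) else 0) * q i) a2).symm
    rw [a3]
    apply sum_le_sum_of_subset
    intro i hi
    obtain ⟨l, hl, rfl⟩ := mem_image.1 hi
    have := hL l hl
    rw [mem_range]; omega
  -- rewrite `valB`
  have eB : (r - 2) * (n - t).choose (k - t) +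
      ∑ i ∈ range j, (k - t).choose i * (n - k).choose (k - t - i) =
      ∑ i ∈ range (k - t + 1), ((r - 2) * (k - t).choose i +
        (if i < j then (k - t).choose i else 0)) * q i := by
    have a1 : ∑ i ∈ range j, (k - t).choose i * (n - k).choose (k - t - i) =
        ∑ i ∈ range (k - t + 1), (if i < j then (k - t).choose i else 0) * q i := by
      have b1 : ∀ i, (if i < j then (k - t).choose i else 0) * q i =
          if i < j then (k - t).choose i * q i else 0 := by
        intro i; split_ifs <;> simp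
      rw [sum_congr rfl (fun i _ => b1 i), ← sum_filter]
      apply sum_congr _ (fun i _ => rfl)
      ext i
      simp only [mem_range, mem_filter]
      omega
    rw [a1, vdm n k t htk hkn, mul_sum, ← sum_add_distrib]
    apply sum_congr rfl
    intro i _
    rw [hq]; ring
  -- termwise comparison
  have hterm : ∀ i ∈ range (k - t + 1), (if t + i ∈ L then k.choose (t + i) else 0) * q i +
      (if i = 1 then q 1 else 0) ≤
      ((r - 2) * (k - t).choose i + (if i < j then (k - t).choose i else 0)) * q i := by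
    intro i hi
    rw [mem_range] at hi
    rcases Nat.eq_zero_or_pos i with hi0 | hi0
    · subst hi0
      rw [if_neg (show ¬ (0:ℕ) = 1 by omega), add_zero, if_pos (show 0 < j by omega)]
      apply Nat.mul_le_mul_right
      simp only [add_zero, Nat.choose_zero_right, mul_one]
      split_ifs <;> omega
    · -- `2 C(k,t+i) ≤ (r-1) C(k-t,i)`
      have b1 : k.choose (t + i) * (t + i).choose t = k.choose t * (k - t).choose i := by
        rw [Nat.choose_mul (by omega)]
        congr 2; omega
      have b2 : 2 ≤ (t + i).choose t := by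
        have h1 : (t + 1).choose t ≤ (t + i).choose t := Nat.choose_le_choose _ (by omega)
        rw [Nat.choose_succ_self_right] at h1
        omega
      have b3 : 2 * k.choose (t + i) ≤ (r - 1) * (k - t).choose i := by
        calc 2 * k.choose (t + i) ≤ (t + i).choose t * k.choose (t + i) := by gcongr
          _ = k.choose t * (k - t).choose i := by rw [mul_comm, b1]
          _ ≤ (r - 1) * (k - t).choose i := by
            apply Nat.mul_le_mul_right; omega
      have b4 : (r - 1) * (k - t).choose i ≤ 2 * ((r - 2) * (k - t).choose i) := by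
        rw [← mul_assoc]; apply Nat.mul_le_mul_right; omega
      have b5 : k.choose (t + i) ≤ (r - 2) * (k - t).choose i := by omega
      by_cases hi1 : i = 1
      · subst hi1
        rw [if_pos rfl]
        have hc : (if t + 1 ∈ L then k.choose (t + 1) else 0) + 1 ≤
            (r - 2) * (k - t).choose 1 + (if 1 < j then (k - t).choose 1 else 0) := by
          by_cases hj' : 1 < j
          · rw [if_pos hj']
            have : 1 ≤ (k - t).choose 1 := by rw [Nat.choose_one_right]; omega
            split_ifs <;> omega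
          · have : j = 1 := by omega
            subst this
            rw [if_neg hjL, if_neg hj']
            have : 1 * 1 ≤ (r - 2) * (k - t).choose 1 := by
              apply Nat.mul_le_mul (by omega)
              rw [Nat.choose_one_right]; omega
            omega
        calc (if t + 1 ∈ L then k.choose (t + 1) else 0) * q 1 + q 1
            = ((if t + 1 ∈ L then k.choose (t + 1) else 0) + 1) * q 1 := by ring
          _ ≤ _ := Nat.mul_le_mul_right _ hc
      · rw [if_neg hi1, add_zero]
        apply Nat.mul_le_mul_right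
        split_ifs <;> omega
  have hsum := sum_le_sum hterm
  rw [sum_add_distrib, ← eB] at hsum
  have e1 : ∑ i ∈ range (k - t + 1), (if i = 1 then q 1 else 0) = q 1 := by
    rw [sum_ite_eq' (range (k - t + 1)) 1 (fun _ => q 1), if_pos (mem_range.2 (by omega))]
  rw [e1] at hsum
  have hq1 : r ≤ q 1 := by
    have a1 := h1 n (by omega)
    rw [Nat.sub_zero, ← hm] at a1
    have a2 : 1 ≤ n.choose m := Nat.choose_pos (by omega)
    have a3 : r * 1 ≤ r * n.choose m := Nat.mul_le_mul_left _ a2
    rw [hq]; dsimp only; omega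
  rw [valA, valB]
  omega

end Cross7592
end

section

/-!
# Kernels: the case `t ≥ 1`
-/

namespace Cross7592
open Finset

variable {n k r t : ℕ} {L : Finset ℕ} {𝒜 : Fin r → Finset (Finset (Fin n))}

theorem exists_tuple (h : Adm n k r L 𝒜) {i l : Fin r} (hil : i ≠ l) {F A : Finset (Fin n)}
    (hF : F ∈ 𝒜 i) (hA : A ∈ 𝒜 l) :
    ∃ B : Fin r → Finset (Fin n), (∀ m, B m ∈ 𝒜 m) ∧ B i = F ∧ B l = A := by
  choose G hG using h.ne
  refine ⟨fun m => if m = i then F else if m = l then A else G m, ?_, ?_, ?_⟩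
  · intro m
    dsimp only
    split_ifs with h1 h2
    · rw [h1]; exact hF
    · rw [h2]; exact hA
    · exact hG m
  · simp
  · simp [hil.symm]

theorem t_le_inter (h : Adm n k r L 𝒜) (htL : ∀ l ∈ L, t ≤ l) {i l : Fin r} (hil : i ≠ l)
    {F A : Finset (Fin n)} (hF : F ∈ 𝒜 i) (hA : A ∈ 𝒜 l) : t ≤ #(F ∩ A) := by
  obtain ⟨B, hB, h1, h2⟩ := exists_tuple h hil hF hA
  refine (htL _ (h.cross B hB)).trans (card_le_card (subset_inter ?_ ?_))
  · rw [← h1]; exact common_subset B i
  · rw [← h2]; exact common_subset B l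

/-- the kernels of the family `𝒜 i` -/
def Ker (n k t : ℕ) (ℱ : Finset (Finset (Fin n))) : Finset (Finset (Fin n)) :=
  (univ.powersetCard t).filter fun T =>
    k * (n - (t + 1)).choose (k - (t + 1)) < #(ℱ.filter fun F => T ⊆ F)

theorem ker_sub (h : Adm n k r L 𝒜) (htk : t + 1 ≤ k) (htL : ∀ l ∈ L, t ≤ l) {i l : Fin r}
    (hil : i ≠ l) {T A : Finset (Fin n)} (hT : T ∈ Ker n k t (𝒜 i)) (hA : A ∈ 𝒜 l) : T ⊆ A := by
  rw [Ker, mem_filter, mem_powersetCard] at hT
  obtain ⟨⟨_, hTc⟩, hdeg⟩ := hT
  by_contra hTA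
  have h1 : #((𝒜 i).filter fun F => T ⊆ F ∧ ¬ Disjoint F (A \ T)) ≤
      k * (n - (t + 1)).choose (k - (t + 1)) := by
    have a1 : (𝒜 i).filter (fun F => T ⊆ F ∧ ¬ Disjoint F (A \ T)) ⊆
        (A \ T).biUnion fun x => (univ.powersetCard k).filter fun F => insert x T ⊆ F := by
      intro F hF
      rw [mem_filter] at hF
      obtain ⟨h1, h2, h3⟩ := hF
      rw [not_disjoint_iff] at h3
      obtain ⟨x, hx, hx2⟩ := h3
      rw [mem_biUnion]
      refine ⟨x, hx2, mem_filter.2 ⟨mem_powersetCard.2 ⟨subset_univ _, h.sub i F h1⟩, ?_⟩⟩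
      exact insert_subset hx h2
    refine (card_le_card a1).trans ((card_biUnion_le_card_mul _ _
      ((n - (t + 1)).choose (k - (t + 1))) ?_).trans ?_)
    · intro x hx
      have hxT : x ∉ T := (mem_sdiff.1 hx).2
      have e : #(insert x T) = t + 1 := by rw [card_insert_of_notMem hxT, hTc]
      rw [card_star univ (insert x T) k (subset_univ _) (by omega), e, card_univ,
        Fintype.card_fin]
    · apply Nat.mul_le_mul_right
      rw [← h.sub l A hA]
      exact card_le_card sdiff_subset
  obtain ⟨F, hF, hTF, hd⟩ : ∃ F ∈ 𝒜 i, T ⊆ F ∧ Disjoint F (A \ T) := by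
    by_contra hc
    push Not at hc
    have e : (𝒜 i).filter (fun F => T ⊆ F) =
        (𝒜 i).filter (fun F => T ⊆ F ∧ ¬ Disjoint F (A \ T)) := by
      ext F
      simp only [mem_filter]
      constructor
      · rintro ⟨h1, h2⟩; exact ⟨h1, h2, hc F h1 h2⟩
      · rintro ⟨h1, h2, _⟩; exact ⟨h1, h2⟩
    rw [e] at hdeg
    omega
  have h2 := t_le_inter h htL hil hF hA
  have h3 : F ∩ A ⊆ T ∩ A := by
    intro x hx
    rw [mem_inter] at hx ⊢
    refine ⟨?_, hx.2⟩
    by_contra hxT
    exact (disjoint_left.1 hd hx.1) (mem_sdiff.2 ⟨hx.2, hxT⟩)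
  have h4 : #(T ∩ A) < t := by
    rw [← hTc]
    apply card_lt_card
    refine ⟨inter_subset_left, fun hh => hTA (fun x hx => (mem_inter.1 (hh hx)).2)⟩
  have := card_le_card h3
  omega

theorem fam_le (h : Adm n k r L 𝒜) (hr : 3 ≤ r) (htk : t + 1 ≤ k) (htL : ∀ l ∈ L, t ≤ l)
    (i : Fin r) : #(𝒜 i) ≤ #(Ker n k t (𝒜 i)) * (n - t).choose (k - t) +
      k.choose t * (k * (n - (t + 1)).choose (k - (t + 1))) := by
  have : 1 < Fintype.card (Fin r) := by rw [Fintype.card_fin]; omega
  obtain ⟨l, hl⟩ := Fintype.exists_ne_of_one_lt_card this i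
  obtain ⟨A, hA⟩ := h.ne l
  have a1 : 𝒜 i ⊆ (A.powersetCard t).biUnion fun T => (𝒜 i).filter fun F => T ⊆ F := by
    intro F hF
    obtain ⟨T, hT, hTc⟩ := exists_subset_card_eq (t_le_inter h htL hl.symm hF hA)
    rw [mem_biUnion]
    exact ⟨T, mem_powersetCard.2 ⟨hT.trans inter_subset_right, hTc⟩,
      mem_filter.2 ⟨hF, hT.trans inter_subset_left⟩⟩
  have a2 := (card_le_card a1).trans card_biUnion_le
  have a3 : ∀ T ∈ A.powersetCard t, #((𝒜 i).filter fun F => T ⊆ F) ≤
      (if T ∈ Ker n k t (𝒜 i) then (n - t).choose (k - t) else 0) +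
        k * (n - (t + 1)).choose (k - (t + 1)) := by
    intro T hT
    rw [mem_powersetCard] at hT
    split_ifs with h1
    · have : #((𝒜 i).filter fun F => T ⊆ F) ≤ (n - t).choose (k - t) := by
        have e := card_star univ T k (subset_univ _) (by omega)
        rw [hT.2, card_univ, Fintype.card_fin] at e
        rw [← e]
        apply card_le_card
        intro F hF
        rw [mem_filter] at hF ⊢
        exact ⟨mem_powersetCard.2 ⟨subset_univ _, h.sub i F hF.1⟩, hF.2⟩
      omega
    · rw [Ker, mem_filter, mem_powersetCard, not_and, not_lt] at h1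
      have := h1 ⟨subset_univ _, hT.2⟩
      omega
  have a4 := a2.trans (sum_le_sum a3)
  rw [sum_add_distrib, sum_const, card_powersetCard, h.sub l A hA, smul_eq_mul] at a4
  have a5 : ∑ T ∈ A.powersetCard t,
      (if T ∈ Ker n k t (𝒜 i) then (n - t).choose (k - t) else 0) ≤
      #(Ker n k t (𝒜 i)) * (n - t).choose (k - t) := by
    rw [← sum_filter, sum_const, smul_eq_mul]
    apply Nat.mul_le_mul_right
    apply card_le_card
    intro T hT
    exact (mem_filter.1 hT).2
  omega

/-- the trichotomy -/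
theorem trichotomy (h : Adm n k r L 𝒜) (hr : 3 ≤ r) (htk : t + 1 ≤ k) (htL : ∀ l ∈ L, t ≤ l) :
    (∃ K : Finset (Fin n), #K = k ∧ ∃ i₀, (∀ i, i ≠ i₀ → 𝒜 i = {K}) ∧
      ∀ F ∈ 𝒜 i₀, #F = k ∧ #(F ∩ K) ∈ L) ∨
    (∃ T : Finset (Fin n), #T = t ∧ ∀ i, ∀ F ∈ 𝒜 i, T ⊆ F) ∨
    total 𝒜 ≤ max ((k - 1).choose t) 1 * (n - t).choose (k - t) +
      r * (k.choose t * k + 1) * (n - (t + 1)).choose (k - (t + 1)) := by
  set X := (n - t).choose (k - t) with hX
  set Y := (n - (t + 1)).choose (k - (t + 1)) with hY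
  set U : Fin r → Finset (Fin n) := fun i => (Ker n k t (𝒜 i)).biUnion id with hU
  have hone : ∀ i : Fin r, ∃ l, l ≠ i := by
    intro i
    have : 1 < Fintype.card (Fin r) := by rw [Fintype.card_fin]; omega
    exact Fintype.exists_ne_of_one_lt_card this i
  have hUsub : ∀ i l, i ≠ l → ∀ A ∈ 𝒜 l, U i ⊆ A := by
    intro i l hil A hA
    rw [hU]
    exact biUnion_subset.2 fun T hT => ker_sub h htk htL hil hT hA
  have hKc : ∀ i, ∀ T ∈ Ker n k t (𝒜 i), #T = t := by
    intro i T hT
    rw [Ker, mem_filter, mem_powersetCard] at hT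
    exact hT.1.2
  have hKU : ∀ i, ∀ T ∈ Ker n k t (𝒜 i), T ⊆ U i := by
    intro i T hT x hx
    rw [hU]
    exact mem_biUnion.2 ⟨T, hT, hx⟩
  by_cases hc1 : ∃ i, t + 1 ≤ #(U i)
  · obtain ⟨i, hi⟩ := hc1
    obtain ⟨l₀, hl₀⟩ := hone i
    obtain ⟨A₀, hA₀⟩ := h.ne l₀
    have hUk : #(U i) ≤ k := by
      rw [← h.sub l₀ A₀ hA₀]; exact card_le_card (hUsub i l₀ hl₀.symm A₀ hA₀)
    have hsmall : ∀ l, l ≠ i → #(𝒜 l) ≤ Y := by
      intro l hl
      obtain ⟨U', hU', hU'c⟩ := exists_subset_card_eq hi
      have e := card_star univ U' k (subset_univ _) (by omega)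
      rw [hU'c, card_univ, Fintype.card_fin] at e
      rw [hY, ← e]
      apply card_le_card
      intro F hF
      rw [mem_filter]
      exact ⟨mem_powersetCard.2 ⟨subset_univ _, h.sub l F hF⟩,
        hU'.trans (hUsub i l hl.symm F hF)⟩
    rcases Nat.lt_or_ge (#(U i)) k with hlt | hge
    · -- `|U| < k`
      right; right
      have h1 : #(Ker n k t (𝒜 i)) ≤ (k - 1).choose t := by
        have a1 : Ker n k t (𝒜 i) ⊆ (U i).powersetCard t := by
          intro T hT
          exact mem_powersetCard.2 ⟨hKU i T hT, hKc i T hT⟩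
        refine (card_le_card a1).trans ?_
        rw [card_powersetCard]
        exact Nat.choose_le_choose _ (by omega)
      have h2 := fam_le h hr htk htL i
      have h3 : ∑ l ∈ univ.erase i, #(𝒜 l) ≤ (r - 1) * Y := by
        have := sum_le_card_nsmul (univ.erase i) (fun l => #(𝒜 l)) Y
          (fun l hl => hsmall l (mem_erase.1 hl).1)
        rwa [card_erase_of_mem (mem_univ _), card_univ, Fintype.card_fin, smul_eq_mul] at this
      have h4 : total 𝒜 = #(𝒜 i) + ∑ l ∈ univ.erase i, #(𝒜 l) := by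
        rw [total, ← add_sum_erase univ _ (mem_univ i)]
      rw [h4]
      rw [← hX, ← hY] at h2
      have h5 : #(Ker n k t (𝒜 i)) * X ≤ max ((k - 1).choose t) 1 * X :=
        Nat.mul_le_mul_right _ (h1.trans (le_max_left _ _))
      have h6 : k.choose t * (k * Y) + (r - 1) * Y ≤ r * (k.choose t * k + 1) * Y := by
        have e1 : k.choose t * (k * Y) + (r - 1) * Y = (k.choose t * k + (r - 1)) * Y := by ring
        rw [e1]
        apply Nat.mul_le_mul_right
        have e2 : r * (k.choose t * k + 1) = r * (k.choose t * k) + r := by ring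
        have e3 : 1 * (k.choose t * k) ≤ r * (k.choose t * k) :=
          Nat.mul_le_mul_right _ (by omega)
        omega
      omega
    · -- `|U| = k`
      left
      have hUk' : #(U i) = k := by omega
      have hoth : ∀ l, l ≠ i → 𝒜 l = {U i} := by
        intro l hl
        have : ∀ A ∈ 𝒜 l, A = U i := by
          intro A hA
          exact (eq_of_subset_of_card_le (hUsub i l hl.symm A hA)
            (by rw [hUk', h.sub l A hA])).symm
        obtain ⟨A, hA⟩ := h.ne l
        rw [eq_singleton_iff_unique_mem]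
        refine ⟨?_, this⟩
        rw [← this A hA]; exact hA
      refine ⟨U i, hUk', i, hoth, ?_⟩
      intro F hF
      refine ⟨h.sub i F hF, ?_⟩
      set B : Fin r → Finset (Fin n) := fun m => if m = i then F else U i with hB
      have hBm : ∀ m, B m ∈ 𝒜 m := by
        intro m
        rw [hB]; dsimp only
        split_ifs with h1
        · rw [h1]; exact hF
        · rw [hoth m h1]; exact mem_singleton_self _
      have hcB : common B = F ∩ U i := by
        apply Subset.antisymm
        · refine subset_inter ?_ ?_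
          · have := common_subset B i
            simpa [hB] using this
          · have := common_subset B l₀
            simpa [hB, hl₀] using this
        · apply subset_common
          intro m
          rw [hB]; dsimp only
          split_ifs
          · exact inter_subset_left
          · exact inter_subset_right
      rw [← hcB]
      exact h.cross B hBm
  · push Not at hc1
    have hK1 : ∀ i, #(Ker n k t (𝒜 i)) ≤ 1 := by
      intro i
      rw [card_le_one]
      intro T hT T' hT'
      have e1 : T = U i := eq_of_subset_of_card_le (hKU i T hT) (by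
        rw [hKc i T hT]; have := hc1 i; omega)
      have e2 : T' = U i := eq_of_subset_of_card_le (hKU i T' hT') (by
        rw [hKc i T' hT']; have := hc1 i; omega)
      rw [e1, e2]
    by_cases hc2 : ∃ i i', i ≠ i' ∧ (Ker n k t (𝒜 i)).Nonempty ∧ (Ker n k t (𝒜 i')).Nonempty
    · right; left
      obtain ⟨i, i', hii, ⟨T, hT⟩, ⟨T', hT'⟩⟩ := hc2
      have hTT : T = T' := by
        by_contra hne
        have hcu : t + 1 ≤ #(T ∪ T') := by
          by_contra hlt
          have e1 : T = T ∪ T' := eq_of_subset_of_card_le subset_union_left (by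
            rw [hKc i T hT]; omega)
          have e2 : T' = T ∪ T' := eq_of_subset_of_card_le subset_union_right (by
            rw [hKc i' T' hT']; omega)
          exact hne (e1.trans e2.symm)
        obtain ⟨U', hU', hU'c⟩ := exists_subset_card_eq hcu
        have e := card_star univ U' k (subset_univ _) (by omega)
        rw [hU'c, card_univ, Fintype.card_fin] at e
        have hdeg : k * Y < #((𝒜 i').filter fun F => T' ⊆ F) := by
          rw [Ker, mem_filter] at hT'
          exact hT'.2
        have hle : #((𝒜 i').filter fun F => T' ⊆ F) ≤ Y := by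
          rw [hY, ← e]
          apply card_le_card
          intro F hF
          rw [mem_filter] at hF ⊢
          refine ⟨mem_powersetCard.2 ⟨subset_univ _, h.sub i' F hF.1⟩, hU'.trans ?_⟩
          exact union_subset (ker_sub h htk htL hii hT hF.1) hF.2
        have : 1 * Y ≤ k * Y := Nat.mul_le_mul_right _ (by omega)
        omega
      subst hTT
      refine ⟨T, hKc i T hT, ?_⟩
      intro l F hF
      by_cases hl : l = i
      · subst hl
        exact ker_sub h htk htL hii.symm hT' hF
      · exact ker_sub h htk htL (fun e => hl e.symm) hT hF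
    · right; right
      push Not at hc2
      have hsum : ∑ i, #(Ker n k t (𝒜 i)) ≤ 1 := by
        by_cases hc3 : ∃ i, (Ker n k t (𝒜 i)).Nonempty
        · obtain ⟨i, hi⟩ := hc3
          rw [← add_sum_erase univ _ (mem_univ i)]
          have : ∑ l ∈ univ.erase i, #(Ker n k t (𝒜 l)) = 0 := by
            apply sum_eq_zero
            intro l hl
            have := hc2 i l (fun e => (mem_erase.1 hl).1 e.symm) hi
            rw [card_eq_zero]
            exact this
          rw [this]
          have := hK1 i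
          omega
        · push Not at hc3
          have : ∑ i, #(Ker n k t (𝒜 i)) = 0 := by
            apply sum_eq_zero
            intro l _
            rw [card_eq_zero]
            exact hc3 l
          omega
      have h1 : total 𝒜 ≤ ∑ i, (#(Ker n k t (𝒜 i)) * X + k.choose t * (k * Y)) :=
        sum_le_sum fun i _ => fam_le h hr htk htL i
      rw [sum_add_distrib, ← sum_mul, sum_const, card_univ, Fintype.card_fin, smul_eq_mul] at h1
      have h2 : (∑ i, #(Ker n k t (𝒜 i))) * X ≤ max ((k - 1).choose t) 1 * X :=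
        Nat.mul_le_mul_right _ (hsum.trans (le_max_right _ _))
      have h3 : r * (k.choose t * (k * Y)) ≤ r * (k.choose t * k + 1) * Y := by
        have e1 : r * (k.choose t * k + 1) * Y = r * (k.choose t * (k * Y)) + r * Y := by ring
        omega
      omega

end Cross7592
end

section

/-!
# The star case
-/

namespace Cross7592
open Finset

variable {n : ℕ}

/-- all members of all families contain `T` -/
theorem star_case (r k t j : ℕ) (hr : 3 ≤ r) (hj1 : 1 ≤ j) (hj : j < k - t) :
    ∃ N₀ : ℕ, ∀ n, N₀ ≤ n → ∀ (L : Finset ℕ), t + j ∉ L →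
      ∀ (𝒜 : Fin r → Finset (Finset (Fin n))), Adm n k r L 𝒜 →
      (∃ T : Finset (Fin n), #T = t ∧ ∀ i, ∀ F ∈ 𝒜 i, T ⊆ F) →
      valB n k r t j ≤ total 𝒜 → TypeB n k r t j 𝒜 := by
  obtain ⟨N₁, hcore⟩ := core r (k - t) j hr hj1 hj
  refine ⟨N₁ + k + 1, ?_⟩
  rintro n hn L hjL 𝒜 hA ⟨T, hT, hTF⟩ hval
  set V : Finset (Fin n) := univ \ T with hV
  have hVc : #V = n - t := by
    rw [hV, card_sdiff_of_subset (subset_univ _), card_univ, Fintype.card_fin, hT]
  set ℬ : Fin r → Finset (Finset (Fin n)) := fun i => (𝒜 i).image (· \ T) with hℬ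
  have hinj : ∀ i, Set.InjOn (· \ T) (𝒜 i : Set (Finset (Fin n))) := by
    intro i F hF F' hF' h
    have h' : F \ T = F' \ T := h
    rw [← sdiff_union_of_subset (hTF i F hF), h', sdiff_union_of_subset (hTF i F' hF')]
  have hcard : ∀ i, #(ℬ i) = #(𝒜 i) := fun i => card_image_of_injOn (hinj i)
  have hcfg : Cfg r (k - t) j V ℬ := by
    refine ⟨?_, ?_, ?_⟩
    · intro i G hG
      obtain ⟨F, hF, rfl⟩ := mem_image.1 hG
      rw [mem_powersetCard]
      refine ⟨sdiff_subset_sdiff (subset_univ _) Subset.rfl, ?_⟩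
      rw [card_sdiff_of_subset (hTF i F hF), hA.sub i F hF, hT]
    · intro i
      exact (hA.ne i).image _
    · intro A hAB hc
      choose F hF hFA using fun i => mem_image.1 (hAB i)
      have hFA' : ∀ i, F i \ T = A i := hFA
      have e1 : common A = common F \ T := by
        ext x
        simp only [common, mem_filter, mem_univ, true_and, mem_sdiff]
        constructor
        · intro hx
          have : ∀ i, x ∈ F i ∧ x ∉ T := fun i => by
            have := hx i
            rw [← hFA' i] at this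
            exact mem_sdiff.1 this
          exact ⟨fun i => (this i).1, (this ⟨0, by omega⟩).2⟩
        · rintro ⟨h1, h2⟩ i
          rw [← hFA' i]
          exact mem_sdiff.2 ⟨h1 i, h2⟩
      have hTc : T ⊆ common F := subset_common F T (fun i => hTF i _ (hF i))
      rw [e1, card_sdiff_of_subset hTc, hT] at hc
      have h2 := hA.cross F hF
      have h3 := card_le_card hTc
      have h4 : #(common F) = t + j := by omega
      rw [h4] at h2
      exact hjL h2
  have hk : n - t - (k - t) = n - k := by omega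
  obtain ⟨A, hAV, l, l', hll, h1, h2, h3⟩ := hcore n V ℬ (by omega) hcfg (by
    rw [hVc, hk, sum_congr rfl (fun i _ => hcard i)]
    exact hval)
  rw [mem_powersetCard] at hAV
  have hTA : Disjoint T A := (disjoint_of_subset_left hAV.1 sdiff_disjoint).symm
  have hmem : ∀ i, ∀ F, F ∈ 𝒜 i ↔ T ⊆ F ∧ F \ T ∈ ℬ i := by
    intro i F
    constructor
    · intro hF
      exact ⟨hTF i F hF, mem_image.2 ⟨F, hF, rfl⟩⟩
    · rintro ⟨hTF', hF⟩
      obtain ⟨F', hF', he⟩ := mem_image.1 hF
      have he' : F' \ T = F \ T := he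
      have : F' = F := by
        rw [← sdiff_union_of_subset (hTF i F' hF'), he', sdiff_union_of_subset hTF']
      rw [← this]; exact hF'
  have hcF : ∀ F : Finset (Fin n), T ⊆ F → (#(F \ T) = k - t ↔ #F = k) := by
    intro F hF
    rw [card_sdiff_of_subset hF, hT]
    have := card_le_card hF
    omega
  refine ⟨T, T ∪ A, hT, ?_, subset_union_left, l, l', hll, ?_, ?_, ?_⟩
  · rw [card_union_of_disjoint hTA, hT, hAV.2]; omega
  · ext F
    rw [hmem, h1, mem_singleton, mem_singleton]
    constructor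
    · rintro ⟨h4, h5⟩
      rw [← h5, union_sdiff_of_subset h4]
    · rintro rfl
      refine ⟨subset_union_left, ?_⟩
      rw [union_sdiff_left]; exact sdiff_eq_self_of_disjoint hTA.symm
  · intro F
    rw [hmem, h2, mem_filter, mem_powersetCard]
    have e1 : ∀ (_ : T ⊆ F), F ∩ (T ∪ A) = T ∪ ((F \ T) ∩ A) := by
      intro hTF'
      ext x
      simp only [mem_inter, mem_union, mem_sdiff]
      constructor
      · rintro ⟨h4, h5 | h5⟩
        · exact Or.inl h5
        · by_cases hx : x ∈ T
          · exact Or.inl hx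
          · exact Or.inr ⟨⟨h4, hx⟩, h5⟩
      · rintro (h4 | ⟨⟨h4, _⟩, h5⟩)
        · exact ⟨hTF' h4, Or.inl h4⟩
        · exact ⟨h4, Or.inr h5⟩
    have e2 : ∀ (_ : T ⊆ F), #(F ∩ (T ∪ A)) = t + #((F \ T) ∩ A) := by
      intro hTF'
      rw [e1 hTF', card_union_of_disjoint, hT]
      exact disjoint_of_subset_right inter_subset_left disjoint_sdiff
    constructor
    · rintro ⟨h4, ⟨_, h6⟩, h7⟩
      refine ⟨(hcF F h4).1 h6, h4, ?_⟩
      rw [e2 h4]; omega
    · rintro ⟨h4, h5, h6⟩
      rw [e2 h5] at h6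
      exact ⟨h5, ⟨sdiff_subset_sdiff (subset_univ _) Subset.rfl, (hcF F h5).2 h4⟩, by omega⟩
  · intro i hi hi' F
    rw [hmem, h3 i hi hi', mem_powersetCard]
    constructor
    · rintro ⟨h4, _, h6⟩
      exact ⟨(hcF F h4).1 h6, h4⟩
    · rintro ⟨h4, h5⟩
      exact ⟨h5, sdiff_subset_sdiff (subset_univ _) Subset.rfl, (hcF F h5).2 h4⟩

/-- in the star case the total is at most `valB` -/
theorem star_le (r k t j : ℕ) (hr : 3 ≤ r) (hj1 : 1 ≤ j) (hj : j < k - t) :
    ∃ N₀ : ℕ, ∀ n, N₀ ≤ n → ∀ (L : Finset ℕ), t + j ∉ L →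
      ∀ (𝒜 : Fin r → Finset (Finset (Fin n))), Adm n k r L 𝒜 →
      (∃ T : Finset (Fin n), #T = t ∧ ∀ i, ∀ F ∈ 𝒜 i, T ⊆ F) →
      total 𝒜 ≤ valB n k r t j ∧ (total 𝒜 = valB n k r t j → TypeB n k r t j 𝒜) := by
  obtain ⟨N₀, h⟩ := star_case r k t j hr hj1 hj
  refine ⟨N₀ + k, fun n hn L hL 𝒜 hA hT => ⟨?_, fun he => h n (by omega) L hL 𝒜 hA hT he.ge⟩⟩
  by_contra hc
  push Not at hc
  have h1 := h n (by omega) L hL 𝒜 hA hT hc.le
  have h2 := typeB_total hr hj (by omega) h1
  omega

end Cross7592
end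

section

/-!
# The main theorem: the maximum total size for large `n`
-/

namespace Cross7592
open Finset

/-- existence of a tuple of type A -/
theorem exists_typeA (n k r : ℕ) (L : Finset ℕ) (hr : 3 ≤ r) (hkn : k ≤ n) :
    ∃ 𝒜 : Fin r → Finset (Finset (Fin n)), TypeA n k r L 𝒜 := by
  obtain ⟨K, -, hK⟩ := exists_subset_card_eq (s := (univ : Finset (Fin n))) (n := k)
    (by rw [card_univ, Fintype.card_fin]; exact hkn)
  refine ⟨fun i => if i = ⟨0, by omega⟩ then univ.filter (fun F => #F = k ∧ #(F ∩ K) ∈ L)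
    else {K}, K, hK, ⟨0, by omega⟩, fun i hi => if_neg hi, fun F => ?_⟩
  simp

/-- existence of a tuple of type B -/
theorem exists_typeB (n k r t j : ℕ) (hr : 3 ≤ r) (hkn : k ≤ n) (htk : t ≤ k) :
    ∃ 𝒜 : Fin r → Finset (Finset (Fin n)), TypeB n k r t j 𝒜 := by
  obtain ⟨K, -, hK⟩ := exists_subset_card_eq (s := (univ : Finset (Fin n))) (n := k)
    (by rw [card_univ, Fintype.card_fin]; exact hkn)
  obtain ⟨T, hTK, hT⟩ := exists_subset_card_eq (s := K) (n := t) (by omega)
  refine ⟨fun i => if i = ⟨0, by omega⟩ then {K} else if i = ⟨1, by omega⟩ then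
      univ.filter (fun F => #F = k ∧ T ⊆ F ∧ #(F ∩ K) < t + j)
    else univ.filter (fun F => #F = k ∧ T ⊆ F),
    T, K, hT, hK, hTK, ⟨0, by omega⟩, ⟨1, by omega⟩, ?_, ?_, ?_, ?_⟩
  · intro h
    have := congrArg Fin.val h
    simp at this
  · simp
  · intro F
    have : (⟨1, by omega⟩ : Fin r) ≠ ⟨0, by omega⟩ := by
      intro h
      have := congrArg Fin.val h
      simp at this
    simp only [if_neg this, if_true, mem_filter, mem_univ, true_and]
  · intro i hi hi' F
    simp only [if_neg hi, if_neg hi', mem_filter, mem_univ, true_and]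

/-- the tuples with all families but one equal to `{K}` -/
theorem one_big {n k r : ℕ} {L : Finset ℕ} (hL : ∀ l ∈ L, l ≤ k)
    {𝒜 : Fin r → Finset (Finset (Fin n))}
    (h : ∃ K : Finset (Fin n), #K = k ∧ ∃ i₀, (∀ i, i ≠ i₀ → 𝒜 i = {K}) ∧
      ∀ F ∈ 𝒜 i₀, #F = k ∧ #(F ∩ K) ∈ L) :
    total 𝒜 ≤ valA n k r L ∧ (total 𝒜 = valA n k r L → TypeA n k r L 𝒜) := by
  obtain ⟨K, hK, i₀, h1, h2⟩ := h
  set 𝒞 : Finset (Finset (Fin n)) := univ.filter (fun F => #F = k ∧ #(F ∩ K) ∈ L) with h𝒞
  set ℬ : Fin r → Finset (Finset (Fin n)) := fun i => if i = i₀ then 𝒞 else {K} with hℬ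
  have hB : TypeA n k r L ℬ := by
    refine ⟨K, hK, i₀, fun i hi => if_neg hi, fun F => ?_⟩
    rw [hℬ]
    simp [h𝒞]
  have hBt := typeA_total hL hB
  have hsub : 𝒜 i₀ ⊆ 𝒞 := by
    intro F hF
    rw [h𝒞, mem_filter]
    exact ⟨mem_univ _, h2 F hF⟩
  have e1 : total 𝒜 = #(𝒜 i₀) + ∑ i ∈ univ.erase i₀, #(𝒜 i) :=
    (add_sum_erase univ _ (mem_univ i₀)).symm
  have e2 : total ℬ = #𝒞 + ∑ i ∈ univ.erase i₀, #(𝒜 i) := by
    rw [total, ← add_sum_erase univ _ (mem_univ i₀)]
    congr 1
    · rw [hℬ]; simp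
    · apply sum_congr rfl
      intro i hi
      rw [h1 i (mem_erase.1 hi).1, hℬ]
      simp only [if_neg (mem_erase.1 hi).1]
  have e3 := card_le_card hsub
  refine ⟨by omega, fun he => ?_⟩
  have e4 : 𝒜 i₀ = 𝒞 := eq_of_subset_of_card_le hsub (by omega)
  refine ⟨K, hK, i₀, h1, fun F => ?_⟩
  rw [e4, h𝒞, mem_filter]
  simp

/-- the main theorem for fixed `t` and `j` -/
theorem main_tj (r k t j : ℕ) (hr : 3 ≤ r) (hj1 : 1 ≤ j) (hj : j < k - t) :
    ∃ N₀ : ℕ, ∀ n, N₀ ≤ n → ∀ L : Finset ℕ, (∀ l ∈ L, l ≤ k) → (∀ l ∈ L, t ≤ l) →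
      (∀ i, i < j → t + i ∈ L) → t + j ∉ L →
      (r ≤ k.choose t → IsGreatest (totals n k r L) (valA n k r L) ∧
        ∀ 𝒜 : Fin r → Finset (Finset (Fin n)),
          (Adm n k r L 𝒜 ∧ total 𝒜 = valA n k r L) ↔ TypeA n k r L 𝒜) ∧
      (k.choose t < r → IsGreatest (totals n k r L) (valB n k r t j) ∧
        ∀ 𝒜 : Fin r → Finset (Finset (Fin n)),
          (Adm n k r L 𝒜 ∧ total 𝒜 = valB n k r t j) ↔ TypeB n k r t j 𝒜) := by
  obtain ⟨N₁, h1⟩ := star_le r k t j hr hj1 hj
  obtain ⟨N₂, h2⟩ := close k t (by omega)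
    ((k.choose t + 1 + r) * (k - t) + r * (k.choose t * k + 1) + 2)
  -- the comparison of the two values
  obtain ⟨N₃, h3⟩ : ∃ N₃ : ℕ, 1 ≤ t → k.choose t < r → ∀ n, N₃ ≤ n → ∀ L : Finset ℕ,
      (∀ l ∈ L, l ≤ k) → (∀ l ∈ L, t ≤ l) → t + j ∉ L → valA n k r L < valB n k r t j := by
    by_cases ht : 1 ≤ t
    · by_cases hrk : k.choose t < r
      · obtain ⟨N, hN⟩ := valA_lt_valB k r t j hr ht hj1 hj hrk
        exact ⟨N, fun _ _ => hN⟩
      · exact ⟨0, fun _ h => absurd h hrk⟩
    · exact ⟨0, fun h => absurd h ht⟩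
  refine ⟨N₁ + N₂ + N₃ + 2 * k, fun n hn L hLk hLt hLi hLj => ?_⟩
  obtain ⟨c1, c2, c3, c4⟩ := h2 n (by omega)
  have htL : t ∈ L := by simpa using hLi 0 (by omega)
  set X := (n - t).choose (k - t) with hX
  set W := (n - k).choose (k - t) with hW
  set Z := (n - t).choose (k - t - 1) with hZ
  set Y := (n - (t + 1)).choose (k - (t + 1)) with hY
  have vB1 := valB_le n k r t j hr (by omega) (by omega) hj
  have vB2 := le_valB n k r t j hj1
  have vA := le_valA n k r t L htL
  rw [← hX] at vB1 vB2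
  rw [← hW] at vB2 vA
  have hpos : 1 ≤ k.choose t := Nat.choose_pos (by omega)
  -- `t ≥ 1` : the trichotomy gives three cases
  have hM : 1 ≤ t → (k - 1).choose t + 1 ≤ k.choose t := by
    intro ht
    obtain ⟨t', ht'⟩ : ∃ t', t = t' + 1 := ⟨t - 1, by omega⟩
    obtain ⟨k', hk'⟩ : ∃ k', k = k' + 1 := ⟨k - 1, by omega⟩
    have h1 : 1 ≤ k'.choose t' := Nat.choose_pos (by omega)
    have h2 : (k' + 1).choose (t' + 1) = k'.choose t' + k'.choose (t' + 1) :=
      Nat.choose_succ_succ k' t'
    rw [ht', hk', Nat.add_sub_cancel, h2]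
    omega
  have key : ∀ 𝒜 : Fin r → Finset (Finset (Fin n)), Adm n k r L 𝒜 →
      (r ≤ k.choose t → total 𝒜 ≤ valA n k r L ∧ (total 𝒜 = valA n k r L → TypeA n k r L 𝒜)) ∧
      (k.choose t < r →
        total 𝒜 ≤ valB n k r t j ∧ (total 𝒜 = valB n k r t j → TypeB n k r t j 𝒜)) := by
    intro 𝒜 hA
    by_cases ht : 1 ≤ t
    · -- trichotomy
      have hM' := hM ht
      rcases trichotomy hA hr (by omega) hLt with hU | hU | hU
      · obtain ⟨g1, g2⟩ := one_big hLk hU
        refine ⟨fun _ => ⟨g1, g2⟩, fun hlt => ?_⟩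
        have g3 := h3 ht hlt n (by omega) L hLk hLt hLj
        exact ⟨by omega, fun he => absurd he (by omega)⟩
      · obtain ⟨g1, g2⟩ := h1 n (by omega) L hLj 𝒜 hA hU
        refine ⟨fun hle => ?_, fun _ => ⟨g1, g2⟩⟩
        have g3 : r * W ≤ k.choose t * W := Nat.mul_le_mul_right _ hle
        have g4 : r * X ≤ r * W + r * ((k - t) * Z) := by
          rw [← mul_add]; exact Nat.mul_le_mul_left _ c1
        have g5 : r * ((k - t) * Z) + 2 * Z ≤
            ((k.choose t + 1 + r) * (k - t) + r * (k.choose t * k + 1) + 2) * Z := by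
          have : r * (k - t) + 2 ≤
            ((k.choose t + 1 + r) * (k - t) + r * (k.choose t * k + 1) + 2) := by
            have : r * (k - t) ≤ (k.choose t + 1 + r) * (k - t) :=
              Nat.mul_le_mul_right _ (by omega)
            omega
          calc r * ((k - t) * Z) + 2 * Z = (r * (k - t) + 2) * Z := by ring
            _ ≤ _ := Nat.mul_le_mul_right _ this
        have g6 : r * X = (r - 1) * X + X := by
          rw [← Nat.succ_mul]; congr 1; omega
        have : total 𝒜 < valA n k r L := by omega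
        exact ⟨this.le, fun he => absurd he (by omega)⟩
      · rw [← hX, ← hY] at hU
        have g0 : r * (k.choose t * k + 1) * Y ≤ r * (k.choose t * k + 1) * Z :=
          Nat.mul_le_mul_left _ c4
        refine ⟨fun hle => ?_, fun hlt => ?_⟩
        · have m1 : max ((k - 1).choose t) 1 + 1 ≤ k.choose t := by omega
          have m2 : (max ((k - 1).choose t) 1 + 1) * X ≤ k.choose t * X :=
            Nat.mul_le_mul_right _ m1
          have m3 : k.choose t * X ≤ k.choose t * W + k.choose t * ((k - t) * Z) := by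
            rw [← mul_add]; exact Nat.mul_le_mul_left _ c1
          have m4 : k.choose t * ((k - t) * Z) + r * (k.choose t * k + 1) * Z + Z ≤
              ((k.choose t + 1 + r) * (k - t) + r * (k.choose t * k + 1) + 2) * Z := by
            have : k.choose t * (k - t) + r * (k.choose t * k + 1) + 1 ≤
              ((k.choose t + 1 + r) * (k - t) + r * (k.choose t * k + 1) + 2) := by
              have : k.choose t * (k - t) ≤ (k.choose t + 1 + r) * (k - t) :=
                Nat.mul_le_mul_right _ (by omega)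
              omega
            calc k.choose t * ((k - t) * Z) + r * (k.choose t * k + 1) * Z + Z =
                (k.choose t * (k - t) + r * (k.choose t * k + 1) + 1) * Z := by ring
              _ ≤ _ := Nat.mul_le_mul_right _ this
          have m5 : (max ((k - 1).choose t) 1 + 1) * X = max ((k - 1).choose t) 1 * X + X := by
            ring
          have : total 𝒜 < valA n k r L := by omega
          exact ⟨this.le, fun he => absurd he (by omega)⟩
        · have m1 : max ((k - 1).choose t) 1 ≤ r - 2 := by omega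
          have m2 : max ((k - 1).choose t) 1 * X ≤ (r - 2) * X := Nat.mul_le_mul_right _ m1
          have m4 : (k - t) * Z + r * (k.choose t * k + 1) * Z + Z ≤
              ((k.choose t + 1 + r) * (k - t) + r * (k.choose t * k + 1) + 2) * Z := by
            have : (k - t) + r * (k.choose t * k + 1) + 1 ≤
              ((k.choose t + 1 + r) * (k - t) + r * (k.choose t * k + 1) + 2) := by
              have : 1 * (k - t) ≤ (k.choose t + 1 + r) * (k - t) :=
                Nat.mul_le_mul_right _ (by omega)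
              omega
            calc (k - t) * Z + r * (k.choose t * k + 1) * Z + Z =
                ((k - t) + r * (k.choose t * k + 1) + 1) * Z := by ring
              _ ≤ _ := Nat.mul_le_mul_right _ this
          have : total 𝒜 < valB n k r t j := by omega
          exact ⟨this.le, fun he => absurd he (by omega)⟩
    · -- `t = 0`
      have ht0 : t = 0 := by omega
      have hc : k.choose t = 1 := by rw [ht0, Nat.choose_zero_right]
      refine ⟨fun h => absurd h (by omega), fun _ => ?_⟩
      exact h1 n (by omega) L hLj 𝒜 hA ⟨∅, by rw [card_empty, ht0], fun i F _ => empty_subset F⟩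
  constructor
  · intro hle
    obtain ⟨ℬ, hB⟩ := exists_typeA n k r L hr (by omega)
    have hAB : ∀ 𝒜, TypeA n k r L 𝒜 → Adm n k r L 𝒜 := fun 𝒜 h =>
      typeA_adm hr ⟨t, htL, by omega⟩ (by omega) h
    refine ⟨⟨⟨ℬ, hAB ℬ hB, (typeA_total hLk hB).symm⟩, ?_⟩, fun 𝒜 => ⟨?_, ?_⟩⟩
    · rintro s ⟨𝒜, h𝒜, rfl⟩
      exact ((key 𝒜 h𝒜).1 hle).1
    · rintro ⟨h𝒜, he⟩
      exact ((key 𝒜 h𝒜).1 hle).2 he
    · intro h
      exact ⟨hAB 𝒜 h, typeA_total hLk h⟩
  · intro hlt
    obtain ⟨ℬ, hB⟩ := exists_typeB n k r t j hr (by omega) (by omega)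
    have hAB : ∀ 𝒜, TypeB n k r t j 𝒜 → Adm n k r L 𝒜 := fun 𝒜 h =>
      typeB_adm hr hj1 hj (by omega) hLi h
    refine ⟨⟨⟨ℬ, hAB ℬ hB, (typeB_total hr hj (by omega) hB).symm⟩, ?_⟩, fun 𝒜 => ⟨?_, ?_⟩⟩
    · rintro s ⟨𝒜, h𝒜, rfl⟩
      exact ((key 𝒜 h𝒜).2 hlt).1
    · rintro ⟨h𝒜, he⟩
      exact ((key 𝒜 h𝒜).2 hlt).2 he
    · intro h
      exact ⟨hAB 𝒜 h, typeB_total hr hj (by omega) h⟩

/-- **Main theorem.**  `n₀` depends only on `k` and `r` -/
theorem main (k r : ℕ) (hr : 3 ≤ r) : ∃ n₀ : ℕ, ∀ n, n₀ ≤ n → ∀ L : Finset ℕ, L.Nonempty →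
    (∀ l ∈ L, l ≤ k) → (∀ a b : ℕ, L ≠ Icc a b) → ∀ t j : ℕ, IsLeast (L : Set ℕ) t →
    IsLeast {i : ℕ | t + i ∉ L} j →
      (r ≤ k.choose t → IsGreatest (totals n k r L) (valA n k r L) ∧
        ∀ 𝒜 : Fin r → Finset (Finset (Fin n)),
          (Adm n k r L 𝒜 ∧ total 𝒜 = valA n k r L) ↔ TypeA n k r L 𝒜) ∧
      (k.choose t < r → IsGreatest (totals n k r L) (valB n k r t j) ∧
        ∀ 𝒜 : Fin r → Finset (Finset (Fin n)),
          (Adm n k r L 𝒜 ∧ total 𝒜 = valB n k r t j) ↔ TypeB n k r t j 𝒜) := by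
  have hex : ∀ t j : ℕ, ∃ N₀ : ℕ, 1 ≤ j → j < k - t → ∀ n, N₀ ≤ n → ∀ L : Finset ℕ,
      (∀ l ∈ L, l ≤ k) → (∀ l ∈ L, t ≤ l) → (∀ i, i < j → t + i ∈ L) → t + j ∉ L →
      (r ≤ k.choose t → IsGreatest (totals n k r L) (valA n k r L) ∧
        ∀ 𝒜 : Fin r → Finset (Finset (Fin n)),
          (Adm n k r L 𝒜 ∧ total 𝒜 = valA n k r L) ↔ TypeA n k r L 𝒜) ∧
      (k.choose t < r → IsGreatest (totals n k r L) (valB n k r t j) ∧
        ∀ 𝒜 : Fin r → Finset (Finset (Fin n)),
          (Adm n k r L 𝒜 ∧ total 𝒜 = valB n k r t j) ↔ TypeB n k r t j 𝒜) := by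
    intro t j
    by_cases h : 1 ≤ j ∧ j < k - t
    · obtain ⟨N, hN⟩ := main_tj r k t j hr h.1 h.2
      exact ⟨N, fun _ _ => hN⟩
    · exact ⟨0, fun h1 h2 => absurd ⟨h1, h2⟩ h⟩
  choose f hf using hex
  refine ⟨(range (k + 1)).sup fun t => (range (k + 1)).sup fun j => f t j,
    fun n hn L hne hLk hint t j ht hj => ?_⟩
  have htL : t ∈ L := ht.1
  have htl : ∀ l ∈ L, t ≤ l := fun l hl => ht.2 hl
  have hjL : t + j ∉ L := hj.1
  have hi : ∀ i, i < j → t + i ∈ L := by
    intro i hij
    by_contra hc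
    have : j ≤ i := hj.2 hc
    omega
  have hj1 : 1 ≤ j := by
    rcases Nat.eq_zero_or_pos j with h0 | h0
    · rw [h0, add_zero] at hjL; exact absurd htL hjL
    · exact h0
  have hjk : t + j < k := by
    by_contra hc
    apply hint t (t + j - 1)
    ext l
    rw [mem_Icc]
    constructor
    · intro hl
      have h1 := hLk l hl
      have h2 := htl l hl
      have h3 : l ≠ t + j := fun h => hjL (h ▸ hl)
      omega
    · rintro ⟨h1, h2⟩
      have := hi (l - t) (by omega)
      rwa [show t + (l - t) = l by omega] at this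
  have hb : f t j ≤ n := by
    refine le_trans ?_ hn
    refine le_trans ?_ (le_sup (f := fun t => (range (k + 1)).sup fun j => f t j)
      (mem_range.2 (show t < k + 1 by omega)))
    exact le_sup (f := fun j => f t j) (mem_range.2 (show j < k + 1 by omega))
  exact hf t j hj1 (by omega) n hb L hLk htl hi hjL

end Cross7592
end
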